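import Pool.Agent.Helper20.OP.H.Lin

/-!
# Block OP-H5: the model avoids 2143, 3412 and 2413

Proof.  Let `I` be the set of the elements which are the centre or in the arms `0` (`NE`), `2` (`SW`), and `J` the set of the others (arms
`1`, `3`).  On `I` the two orders agree, on `J` they are opposite (look at the coordinates).  An inversion is a pair on
which they disagree.
`2143` at `p₁ p₂ p₃ p₄`: `{p₁, p₂}` is an inversion, so one of `p₁, p₂` is in `J`; also one of `p₃, p₄` is in `J`; but no pair of an element of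
`{p₁, p₂}` and one of `{p₃, p₄}` is an inversion.
`3412`: one of `p₁, p₂` is in `I`, one of `p₃, p₄` is in `I`, and they form an inversion.
`2413`: the inversions are `p₁p₃`, `p₂p₃`, `p₂p₄`.  `p₂` and `p₃` are in `J`, `p₁` and `p₄` in `I` (every other distribution has an inversion in
`I` or a non-inversion in `J`).  Horizontally `p₁ < p₂ < p₃ < p₄`, vertically `p₃ < p₁ < p₄ < p₂`.  If `p₂` is in the arm `3` (below the centre), then `p₄`
is below the centre, so in the arm `2`, so left of the centre; but it is to the right of `p₂`, contradiction.  So `p₂ = NW T₂`, so `p₁` is left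
of the centre: `p₁ = SW T₁ l₁`; so `p₃` is below the centre: `p₃ = SE T₃`; so `p₄` is right of the centre: `p₄ = NE T₄ l₄`.
With `K = 2 q + 2` and `l₁, l₄ < q`: `cx p₁ < cx p₂` gives `K T₂ + 1 < K T₁ + l₁ + 2`, so `T₂ ≤ T₁`; `cy p₃ < cy p₁` gives
`K T₁ + l₁ + 1 < K T₃ + q + 1`, so `T₁ ≤ T₃`; `cx p₃ < cx p₄` gives `K (T₃ + N) < K T₄ + l₄ + 1`, so `T₃ + N ≤ T₄`; `cy p₄ < cy p₂` gives
`K T₄ + l₄ + 1 < K T₂ + q + 1`, so `T₄ ≤ T₂`.  Contradiction, as `N ≥ 2`.
-/

set_option autoImplicit false

namespace Pool.Agent.Helper20.OP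

/-- the permutation with the values `σ` as a structure -/
def patt {k : ℕ} (σ : Fin k → ℕ) : Str 2 (Fin k) := fun r x y => if r = 0 then x < y else σ x < σ y

/-- pairs of linear orders avoiding 2143, 3412 and 2413 -/
def Spiral (V : Type) (R : Str 2 V) : Prop :=
  StrictLin (R 0) ∧ StrictLin (R 1) ∧ ¬ Emb (patt ![2, 1, 4, 3]) R ∧
    ¬ Emb (patt ![3, 4, 1, 2]) R ∧ ¬ Emb (patt ![2, 4, 1, 3]) R

namespace H

variable {q : ℕ} {κ : ℕ → ℕ} {N : ℕ}

/-- the centre and the arms `NE`, `SW` -/
def ArmI (x : Elt q κ N) : Prop :=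
  (cx x = 0 ∧ cy x = 0) ∨ (0 < cx x ∧ cy x = cx x) ∨ (cy x < 0 ∧ cy x = cx x + 1)

/-- the arms `NW`, `SE` -/
def ArmJ (x : Elt q κ N) : Prop :=
  (cx x < 0 ∧ 0 < cy x ∧ cy x = - cx x + q) ∨
    (0 < cx x ∧ cy x < 0 ∧ cy x = - cx x + ((2 * q + 2) * N : ℕ) - q - 1)

lemma arm_or (h : Good q κ N) (x : Elt q κ N) : ArmI x ∨ ArmJ x := by
  rcases coord_cases h x with ⟨hx, h1, h2⟩ | ⟨T, l, ⟨hx0, hx⟩, hT, hl, hκ, h1, h2⟩ |
    ⟨T, ⟨hx0, hx⟩, hT, h1, h2⟩ | ⟨T, l, ⟨hx0, hx⟩, hT, hl, hκ, h1, h2⟩ |
    ⟨T, ⟨hx0, hx⟩, hT, hp, h1, h2⟩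
  · left; left
    exact ⟨h1, h2⟩
  · left; right; left
    rw [h1, h2]
    exact ⟨by omega, rfl⟩
  · right; left
    rw [h1, h2]
    exact ⟨by omega, by omega, by omega⟩
  · left; right; right
    rw [h1, h2]
    exact ⟨by omega, by omega⟩
  · right; right
    have e : (2 * q + 2) * (T + N) = (2 * q + 2) * T + (2 * q + 2) * N := Nat.mul_add _ _ _
    rw [h1, h2, e]
    rw [e] at hp
    exact ⟨by omega, by omega, by omega⟩

lemma inv_I {x y : Elt q κ N} (hx : ArmI x) (hy : ArmI y) (h : cx x < cx y) : cy x < cy y := by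
  unfold ArmI at hx hy
  omega

lemma inv_J {x y : Elt q κ N} (hx : ArmJ x) (hy : ArmJ y) (h : cx x < cx y) : cy y < cy x := by
  unfold ArmJ at hx hy
  omega

lemma kle {K S S' a a' : ℕ} (h : K * S + a < K * S' + a') (ha' : a' ≤ K) : S ≤ S' := by
  by_contra hcon
  have := kmono (K := K) (not_le.mp hcon)
  omega

lemma emb_ineq {σ : Fin 4 → ℕ} {f : Fin 4 → Elt q κ N}
    (hf : ∀ r x y, patt σ r x y ↔ spi q κ N r (f x) (f y)) :
    (∀ x y : Fin 4, x < y → cx (f x) < cx (f y)) ∧
      ∀ x y : Fin 4, σ x < σ y → cy (f x) < cy (f y) := by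
  refine ⟨fun x y h => ?_, fun x y h => ?_⟩
  · have := (hf 0 x y).mp h
    exact this
  · have := (hf 1 x y).mp h
    exact this

theorem spiral_spi (h : Good q κ N) : Spiral (Elt q κ N) (spi q κ N) := by
  refine ⟨lin_spi h 0, lin_spi h 1, ?_, ?_, ?_⟩
  · rintro ⟨f, _, hf⟩
    obtain ⟨hx, hy⟩ := emb_ineq hf
    have x12 := hx 0 1 (by decide)
    have x23 := hx 1 2 (by decide)
    have x34 := hx 2 3 (by decide)
    have y21 := hy 1 0 (by decide)
    have y14 := hy 0 3 (by decide)
    have y43 := hy 3 2 (by decide)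
    have i12 : ArmI (f 0) → ArmI (f 1) → False := fun a b => by have := inv_I a b x12; omega
    have i34 : ArmI (f 2) → ArmI (f 3) → False := fun a b => by have := inv_I a b x34; omega
    have j13 : ArmJ (f 0) → ArmJ (f 2) → False := fun a b => by
      have := inv_J a b (by omega); omega
    have j14 : ArmJ (f 0) → ArmJ (f 3) → False := fun a b => by
      have := inv_J a b (by omega); omega
    have j23 : ArmJ (f 1) → ArmJ (f 2) → False := fun a b => by
      have := inv_J a b (by omega); omega
    have j24 : ArmJ (f 1) → ArmJ (f 3) → False := fun a b => by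
      have := inv_J a b (by omega); omega
    rcases arm_or h (f 0) with a | a <;> rcases arm_or h (f 1) with b | b <;>
      rcases arm_or h (f 2) with c | c <;> rcases arm_or h (f 3) with d | d <;>
      first
      | exact i12 a b
      | exact i34 c d
      | exact j13 a c
      | exact j14 a d
      | exact j23 b c
      | exact j24 b d
  · rintro ⟨f, _, hf⟩
    obtain ⟨hx, hy⟩ := emb_ineq hf
    have x12 := hx 0 1 (by decide)
    have x23 := hx 1 2 (by decide)
    have x34 := hx 2 3 (by decide)
    have y34 := hy 2 3 (by decide)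
    have y41 := hy 3 0 (by decide)
    have y12 := hy 0 1 (by decide)
    have j12 : ArmJ (f 0) → ArmJ (f 1) → False := fun a b => by have := inv_J a b x12; omega
    have j34 : ArmJ (f 2) → ArmJ (f 3) → False := fun a b => by have := inv_J a b x34; omega
    have i13 : ArmI (f 0) → ArmI (f 2) → False := fun a b => by
      have := inv_I a b (by omega); omega
    have i14 : ArmI (f 0) → ArmI (f 3) → False := fun a b => by
      have := inv_I a b (by omega); omega
    have i23 : ArmI (f 1) → ArmI (f 2) → False := fun a b => by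
      have := inv_I a b (by omega); omega
    have i24 : ArmI (f 1) → ArmI (f 3) → False := fun a b => by
      have := inv_I a b (by omega); omega
    rcases arm_or h (f 0) with a | a <;> rcases arm_or h (f 1) with b | b <;>
      rcases arm_or h (f 2) with c | c <;> rcases arm_or h (f 3) with d | d <;>
      first
      | exact j12 a b
      | exact j34 c d
      | exact i13 a c
      | exact i14 a d
      | exact i23 b c
      | exact i24 b d
  · rintro ⟨f, _, hf⟩
    obtain ⟨hx, hy⟩ := emb_ineq hf
    have x12 := hx 0 1 (by decide)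
    have x23 := hx 1 2 (by decide)
    have x34 := hx 2 3 (by decide)
    have y31 := hy 2 0 (by decide)
    have y14 := hy 0 3 (by decide)
    have y42 := hy 3 1 (by decide)
    have i13 : ArmI (f 0) → ArmI (f 2) → False := fun a b => by
      have := inv_I a b (by omega); omega
    have i23 : ArmI (f 1) → ArmI (f 2) → False := fun a b => by
      have := inv_I a b (by omega); omega
    have i24 : ArmI (f 1) → ArmI (f 3) → False := fun a b => by
      have := inv_I a b (by omega); omega
    have j12 : ArmJ (f 0) → ArmJ (f 1) → False := fun a b => by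
      have := inv_J a b (by omega); omega
    have j14 : ArmJ (f 0) → ArmJ (f 3) → False := fun a b => by
      have := inv_J a b (by omega); omega
    have j34 : ArmJ (f 2) → ArmJ (f 3) → False := fun a b => by
      have := inv_J a b (by omega); omega
    have hN := h.1
    -- the arms of the four points
    have main : ArmI (f 0) → ArmJ (f 1) → ArmJ (f 2) → ArmI (f 3) → False := by
      intro a b c d
      rcases coord_cases h (f 1) with ⟨_, h1, h2⟩ | ⟨T, l, _, _, _, _, h1, h2⟩ |
        ⟨T, _, _, h1, h2⟩ | ⟨T, l, _, _, _, _, h1, h2⟩ | ⟨T, _, _, hp, h1, h2⟩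
      · unfold ArmJ at b; omega
      · unfold ArmJ at b; omega
      · rcases coord_cases h (f 0) with ⟨_, g1, g2⟩ | ⟨T1, l1, _, _, _, _, g1, g2⟩ |
          ⟨T1, _, _, g1, g2⟩ | ⟨T1, l1, _, _, hl1, _, g1, g2⟩ | ⟨T1, _, _, hp1, g1, g2⟩
        · omega
        · omega
        · unfold ArmI at a; omega
        · rcases coord_cases h (f 2) with ⟨_, e1, e2⟩ | ⟨T3, l3, _, _, _, _, e1, e2⟩ |
            ⟨T3, _, _, e1, e2⟩ | ⟨T3, l3, _, _, _, _, e1, e2⟩ | ⟨T3, _, _, hp3, e1, e2⟩
          · omega
          · omega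
          · omega
          · unfold ArmJ at c; omega
          · rcases coord_cases h (f 3) with ⟨_, u1, u2⟩ | ⟨T4, l4, _, _, hl4, _, u1, u2⟩ |
              ⟨T4, _, _, u1, u2⟩ | ⟨T4, l4, _, _, _, _, u1, u2⟩ | ⟨T4, _, _, hp4, u1, u2⟩
            · omega
            · have k1 : T ≤ T1 := kle (K := 2 * q + 2) (a := 1) (a' := l1 + 2)
                (by omega) (by omega)
              have k2 : T1 ≤ T3 := kle (K := 2 * q + 2) (a := l1 + 1) (a' := q + 1)
                (by omega) (by omega)
              have k3 : T3 + N ≤ T4 := kle (K := 2 * q + 2) (a := 0) (a' := l4 + 1)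
                (by omega) (by omega)
              have k4 : T4 ≤ T := kle (K := 2 * q + 2) (a := l4 + 1) (a' := q + 1)
                (by omega) (by omega)
              omega
            · unfold ArmI at d; omega
            · omega
            · unfold ArmI at d; omega
        · omega
      · unfold ArmJ at b; omega
      · unfold ArmI at d
        omega
    rcases arm_or h (f 0) with a | a <;> rcases arm_or h (f 1) with b | b <;>
      rcases arm_or h (f 2) with c | c <;> rcases arm_or h (f 3) with d | d <;>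
      first
      | exact main a b c d
      | exact i13 a c
      | exact i23 b c
      | exact i24 b d
      | exact j12 a b
      | exact j14 a d
      | exact j34 c d

end H

end Pool.Agent.Helper20.OP
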