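import Pool.Agent.Helper20.OP.H.Blk
import Pool.Agent.Helper20.OP.GridEnc

/-!
# Block OP-H4: the model satisfies the condition

The centre is `none`; `z i j` is `NE (i N + j) 0` for `i, j < N` (anything otherwise); `own (some (a, T, l)) = (T / N, T % N)`,
`own none = none`.
`RR`: from `bp_iff` and `su_nw`: `T → T + 1`, when the flag of the cell `T` is `false`, that is `T % N ≠ N - 1`.
`UU`: from `dp_iff` and `sr_se`: `T → T + N`.  `Own`: `reach_ne`.  The number of the elements with index `T`: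
`(κ T + 1) + 1 + (q - κ T) + 1 = q + 3`.  `lt = R 0`: `cx (NE T 0) = K T + 1` is increasing in `T`.
-/

set_option autoImplicit false

namespace Pool.Agent.Helper20.OP.H

open Pool.Agent.Helper29.Prefix

variable {q : ℕ} {κ : ℕ → ℕ} {N : ℕ}

lemma idx_lt {i j : ℕ} (hi : i < N) (hj : j < N) : i * N + j < N * N := by
  have h1 : (i + 1) * N ≤ N * N := Nat.mul_le_mul_right N hi
  rw [Nat.add_mul, Nat.one_mul] at h1
  omega

lemma idx_div {i j : ℕ} (hj : j < N) : (i * N + j) / N = i := by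
  rw [Nat.mul_comm, Nat.mul_add_div (by omega), Nat.div_eq_of_lt hj, Nat.add_zero]

lemma idx_mod {i j : ℕ} (hj : j < N) : (i * N + j) % N = j := by
  rw [Nat.mul_comm, Nat.mul_add_mod, Nat.mod_eq_of_lt hj]

lemma idx_self (T : ℕ) : T / N * N + T % N = T := by
  rw [Nat.mul_comm]
  exact Nat.div_add_mod T N

open Classical in
/-- the first element of the cell in row `i` and column `j` -/
noncomputable def zz (q : ℕ) (κ : ℕ → ℕ) (N i j : ℕ) : Elt q κ N :=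
  if h : i * N + j < N * N then mk 0 (i * N + j) 0 (by omega) h
    (show 0 < num q κ 0 (i * N + j) from Nat.succ_pos _) else none

lemma is_zz {i j : ℕ} (hi : i < N) (hj : j < N) : Is (zz q κ N i j) 0 (i * N + j) 0 := by
  have h := idx_lt hi hj
  exact ⟨by omega, h, Nat.succ_pos _, dif_pos h⟩

lemma eq_zz {x : Elt q κ N} {T : ℕ} (hN : 0 < N) (hx : Is x 0 T 0) :
    T / N < N ∧ T % N < N ∧ x = zz q κ N (T / N) (T % N) := by
  have h1 : T / N < N := Nat.div_lt_of_lt_mul hx.bT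
  have h2 : T % N < N := Nat.mod_lt _ hN
  refine ⟨h1, h2, ?_⟩
  have h3 := is_zz (q := q) (κ := κ) h1 h2
  rw [idx_self] at h3
  exact hx.unique h3

/-- the cell of an element -/
def ownc (q : ℕ) (κ : ℕ → ℕ) (N : ℕ) : Elt q κ N → Option (ℕ × ℕ)
  | none => none
  | some x => some (x.1.2.1 / N, x.1.2.1 % N)

lemma ownc_is {v : Elt q κ N} {a T l : ℕ} (hv : Is v a T l) :
    ownc q κ N v = some (T / N, T % N) := by
  obtain ⟨_, _, _, rfl⟩ := hv
  rfl

lemma ex_is (v : Elt q κ N) (hv : v ≠ none) : ∃ a T l, Is v a T l := by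
  rcases v with _ | ⟨⟨a, T, l⟩, ha, hT, hl⟩
  · exact absurd rfl hv
  · exact ⟨a, T, l, ha, hT, hl, rfl⟩

lemma ownc_iff {v : Elt q κ N} {i j : ℕ} (hj : j < N) :
    ownc q κ N v = some (i, j) ↔ ∃ a l, Is v a (i * N + j) l := by
  constructor
  · intro h
    have hv : v ≠ none := by
      rintro rfl
      exact absurd h (by simp [ownc])
    obtain ⟨a, T, l, hv⟩ := ex_is v hv
    rw [ownc_is hv] at h
    have h1 := Option.some.inj h
    have h2 : T / N = i := congrArg Prod.fst h1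
    have h3 : T % N = j := congrArg Prod.snd h1
    have h4 : T = i * N + j := by rw [← h2, ← h3, idx_self]
    subst h4
    exact ⟨a, l, hv⟩
  · rintro ⟨a, l, hv⟩
    rw [ownc_is hv, idx_div hj, idx_mod hj]

lemma ev_zz (h : Good q κ N) {i j : ℕ} (hi : i < N) (hj : j < N) (m : ℕ) :
    Ev (spi q κ N) none m (zz q κ N i j) ↔ m = κ (i * N + j) := by
  rw [ev_iff h]
  constructor
  · rintro ⟨T, hT, e⟩
    rw [e, ((is_zz hi hj).inj hT).2.1]
  · intro e
    exact ⟨_, is_zz hi hj, e⟩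

lemma lt_of_idx {x y : Elt q κ N} {T T' : ℕ} (hx : Is x 0 T 0) (hy : Is y 0 T' 0) (hT : T < T') :
    spi q κ N 0 x y := by
  obtain ⟨_, _, _, rfl⟩ := hx
  obtain ⟨_, _, _, rfl⟩ := hy
  change (((2 * q + 2) * T + 0 + 1 : ℕ) : ℤ) < (((2 * q + 2) * T' + 0 + 1 : ℕ) : ℤ)
  have := kmono (K := 2 * q + 2) hT
  omega

theorem rr_iff {Γ : Type} (c : Fin q → Γ × Bool × Bool) (h : Good q κ N)
    (hκ : ∀ T (hT : T < N * N), (c ⟨κ T, h.2 T hT⟩).2.2 = decide (T % N = N - 1))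
    (x y : Elt q κ N) : RR c (spi q κ N) none x y ↔
      ∃ T, Is x 0 T 0 ∧ Is y 0 (T + 1) 0 ∧ T % N ≠ N - 1 := by
  constructor
  · rintro ⟨_, _, ⟨m, hm, he⟩, w, hb, hs⟩
    obtain ⟨T, h1, h2⟩ := (bp_iff h x w).mp hb
    obtain ⟨T', h3, h4⟩ := (ev_iff h m x).mp he
    obtain ⟨_, e, _⟩ := h1.inj h3
    subst e
    have h5 := hκ T h1.bT
    have h6 : m = ⟨κ T, h.2 T h1.bT⟩ := Fin.ext h4
    rw [← h6, hm] at h5
    exact ⟨T, h1, (su_nw h h2).mp hs, of_decide_eq_false h5.symm⟩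
  · rintro ⟨T, hx, hy, hT⟩
    obtain ⟨w, hw⟩ := ex1 (q := q) (κ := κ) (N := N) hx.bT
    refine ⟨(z_iff h x).mpr ⟨T, hx⟩, (z_iff h y).mpr ⟨_, hy⟩, ⟨⟨κ T, h.2 T hx.bT⟩, ?_,
      (ev_iff h _ x).mpr ⟨T, hx, rfl⟩⟩, w, (bp_iff h x w).mpr ⟨T, hx, hw⟩, (su_nw h hw).mpr hy⟩
    rw [hκ T hx.bT]
    exact decide_eq_false hT

theorem uu_iff (h : Good q κ N) (x y : Elt q κ N) : UU (spi q κ N) q none x y ↔
      ∃ T, Is x 0 T 0 ∧ Is y 0 (T + N) 0 := by
  constructor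
  · rintro ⟨_, hz, w, hd, hs⟩
    obtain ⟨T, h1, h2⟩ := (dp_iff h x w).mp hd
    obtain ⟨T', h3⟩ := (z_iff h y).mp hz
    exact ⟨T, h1, (sr_se h h2).mp ⟨hs, (ne_iff y).mpr ⟨T', 0, h3⟩⟩⟩
  · rintro ⟨T, hx, hy⟩
    obtain ⟨w, hw⟩ := ex3 (q := q) (κ := κ) (N := N) hx.bT
    exact ⟨(z_iff h x).mpr ⟨T, hx⟩, (z_iff h y).mpr ⟨_, hy⟩, w, (dp_iff h x w).mpr ⟨T, hx, hw⟩,
      ((sr_se h hw).mpr hy).1⟩

lemma arms {v : Elt q κ N} {a T l : ℕ} (hv : Is v a T l) :
    (a = 0 ∧ Is v 0 T l) ∨ Is v 1 T 0 ∨ (a = 2 ∧ Is v 2 T l) ∨ Is v 3 T 0 := by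
  obtain ⟨ha, hT, hl, e⟩ := id hv
  interval_cases a
  · exact Or.inl ⟨rfl, hv⟩
  · have hl' : l < 1 := hl
    have h0 : l = 0 := by omega
    subst h0
    exact Or.inr (Or.inl hv)
  · exact Or.inr (Or.inr (Or.inl ⟨rfl, hv⟩))
  · have hl' : l < 1 := hl
    have h0 : l = 0 := by omega
    subst h0
    exact Or.inr (Or.inr (Or.inr hv))

theorem own_iff (h : Good q κ N) (v x : Elt q κ N) : Own (spi q κ N) q none v x ↔
      ∃ T a l, Is x 0 T 0 ∧ Is v a T l := by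
  constructor
  · rintro ⟨hz, ⟨l, hr⟩ | hb | ⟨w, hc, l, hr⟩ | hd⟩
    · obtain ⟨T, hx⟩ := (z_iff h x).mp hz
      exact ⟨T, 0, _, hx, (reach_ne h (Or.inl rfl) hx _ v).mp hr⟩
    · obtain ⟨T, h1, h2⟩ := (bp_iff h x v).mp hb
      exact ⟨T, 1, 0, h1, h2⟩
    · obtain ⟨T, h1, h2⟩ := (cp_iff h x w).mp hc
      exact ⟨T, 2, _, h1, (reach_ne h (Or.inr rfl) h2 _ v).mp hr⟩
    · obtain ⟨T, h1, h2⟩ := (dp_iff h x v).mp hd
      exact ⟨T, 3, 0, h1, h2⟩
  · rintro ⟨T, a, l, hx, hv⟩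
    have hκ := h.2 T hx.bT
    refine ⟨(z_iff h x).mpr ⟨T, hx⟩, ?_⟩
    rcases arms hv with ⟨_, h1⟩ | h1 | ⟨_, h1⟩ | h1
    · have := h1.b0
      refine Or.inl ⟨⟨l, by omega⟩, (reach_ne h (Or.inl rfl) hx l v).mpr ?_⟩
      rw [Nat.zero_add]
      exact h1
    · exact Or.inr (Or.inl ((bp_iff h x v).mpr ⟨T, hx, h1⟩))
    · have := h1.b2
      obtain ⟨w, hw⟩ := ex2 (q := q) (κ := κ) (N := N) (l := 0) hx.bT (by omega)
      refine Or.inr (Or.inr (Or.inl ⟨w, (cp_iff h x w).mpr ⟨T, hx, hw⟩, ⟨l, by omega⟩,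
        (reach_ne h (Or.inr rfl) hw l v).mpr ?_⟩))
      rw [Nat.zero_add]
      exact h1
    · exact Or.inr (Or.inr (Or.inr ((dp_iff h x v).mpr ⟨T, hx, h1⟩)))

lemma card_cell (h : Good q κ N) {i j : ℕ} (hi : i < N) (hj : j < N) :
    Nat.card {v // ownc q κ N v = some (i, j)} = q + 3 := by
  have hT := idx_lt hi hj
  let F : (Σ a : Fin 4, Fin (num q κ a (i * N + j))) → {v // ownc q κ N v = some (i, j)} :=
    fun y => ⟨mk y.1 (i * N + j) y.2 y.1.2 hT y.2.2,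
      (ownc_iff hj).mpr ⟨y.1, y.2, y.1.2, hT, y.2.2, rfl⟩⟩
  have hF : Function.Bijective F := by
    constructor
    · rintro ⟨a, l⟩ ⟨a', l'⟩ e
      have e1 : mk (q := q) (κ := κ) (N := N) a (i * N + j) l a.2 hT l.2 =
        mk a' (i * N + j) l' a'.2 hT l'.2 := congrArg Subtype.val e
      have h1 : Is (mk (q := q) (κ := κ) (N := N) a (i * N + j) l a.2 hT l.2) a (i * N + j) l :=
        ⟨_, _, _, rfl⟩
      have h2 : Is (mk (q := q) (κ := κ) (N := N) a (i * N + j) l a.2 hT l.2) a' (i * N + j) l' :=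
        ⟨_, _, _, e1⟩
      obtain ⟨e2, _, e3⟩ := h1.inj h2
      have e4 : a = a' := Fin.ext e2
      subst e4
      have e5 : l = l' := Fin.ext e3
      subst e5
      rfl
    · rintro ⟨v, hv⟩
      obtain ⟨a, l, ha, hT', hl, e⟩ := (ownc_iff hj).mp hv
      exact ⟨⟨⟨a, ha⟩, ⟨l, hl⟩⟩, Subtype.ext e.symm⟩
  rw [← Nat.card_congr (Equiv.ofBijective F hF), Nat.card_eq_fintype_card, Fintype.card_sigma,
    Fin.sum_univ_four]
  simp only [Fintype.card_fin]
  have hκ := h.2 _ hT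
  have e0 : num q κ ((0 : Fin 4) : ℕ) (i * N + j) = κ (i * N + j) + 1 := rfl
  have e1 : num q κ ((1 : Fin 4) : ℕ) (i * N + j) = 1 := rfl
  have e2 : num q κ ((2 : Fin 4) : ℕ) (i * N + j) = q - κ (i * N + j) := rfl
  have e3 : num q κ ((3 : Fin 4) : ℕ) (i * N + j) = 1 := rfl
  rw [e0, e1, e2, e3]
  omega

theorem cond_spi {Γ : Type} {W : Wang Γ} (c : Fin q → Γ × Bool × Bool) (h : Good q κ N)
    (f : ℕ → ℕ → Γ)
    (hf : (∀ x y, x + 1 < N → y < N → W.R (f x y) (f (x + 1) y)) ∧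
      (∀ x y, x < N → y + 1 < N → W.U (f x y) (f x (y + 1))) ∧
      (∀ y, y < N → W.l (f 0 y)) ∧ (∀ y, y < N → W.r (f (N - 1) y)) ∧
      (∀ x, x < N → W.b (f x 0)) ∧ (∀ x, x < N → W.t (f x (N - 1))) ∧ W.c (f 0 0))
    (hκ : ∀ T (hT : T < N * N), c ⟨κ T, h.2 T hT⟩ =
      (f (T % N) (T / N), decide (T / N = T % N), decide (T % N = N - 1))) :
    Cond c W (spi q κ N) := by
  have hN := h.1
  have hN0 : 0 < N := by omega
  refine ⟨none, GridStd.code (N := N) (f := f) (z := zz q κ N) (own := ownc q κ N) ?_⟩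
  have hrr := rr_iff c h (fun T hT => by rw [hκ T hT])
  refine ⟨hN, hf.1, hf.2.1, hf.2.2.1, hf.2.2.2.1, hf.2.2.2.2.1, hf.2.2.2.2.2.1, hf.2.2.2.2.2.2,
    ?_, ?_, ?_, ?_, ?_, ?_, ?_, ?_, ?_, ?_, ?_, ?_, ?_, ?_, ?_⟩
  · -- inj
    intro i j i' j' hi hj hi' hj' e
    have h1 := is_zz (q := q) (κ := κ) hi hj
    have h2 := is_zz (q := q) (κ := κ) hi' hj'
    rw [← e] at h2
    obtain ⟨_, e2, _⟩ := h1.inj h2
    have e3 : (i * N + j) / N = (i' * N + j') / N := by rw [e2]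
    have e4 : (i * N + j) % N = (i' * N + j') % N := by rw [e2]
    rw [idx_div hj, idx_div hj'] at e3
    rw [idx_mod hj, idx_mod hj'] at e4
    exact ⟨e3, e4⟩
  · -- Z_iff
    intro x
    rw [z_iff h]
    constructor
    · rintro ⟨T, hT⟩
      obtain ⟨h1, h2, h3⟩ := eq_zz hN0 hT
      exact ⟨_, _, h1, h2, h3⟩
    · rintro ⟨i, j, hi, hj, rfl⟩
      exact ⟨_, is_zz hi hj⟩
  · -- RR_iff
    intro x y
    rw [hrr]
    constructor
    · rintro ⟨T, hx, hy, hT⟩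
      obtain ⟨h1, h2, h3⟩ := eq_zz hN0 hx
      have h4 : T % N + 1 < N := by omega
      have h5 := is_zz (q := q) (κ := κ) h1 h4
      rw [← Nat.add_assoc, idx_self] at h5
      exact ⟨T / N, T % N, h1, h4, h3, hy.unique h5⟩
    · rintro ⟨i, j, hi, hj, rfl, rfl⟩
      have hj' : j < N := by omega
      have h1 := is_zz (q := q) (κ := κ) hi hj'
      have h2 := is_zz (q := q) (κ := κ) hi hj
      rw [← Nat.add_assoc] at h2
      refine ⟨_, h1, h2, ?_⟩
      rw [idx_mod hj']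
      omega
  · -- UU_iff
    intro x y
    rw [uu_iff h]
    constructor
    · rintro ⟨T, hx, hy⟩
      obtain ⟨h1, h2, h3⟩ := eq_zz hN0 hx
      have h4 : T / N + 1 < N := by
        have h5 := hy.bT
        have h6 := idx_self (N := N) T
        by_contra hcon
        have h7 : N ≤ T / N + 1 := by omega
        have h8 : N * N ≤ (T / N + 1) * N := Nat.mul_le_mul_right N h7
        rw [Nat.add_mul, Nat.one_mul] at h8
        omega
      have h5 := is_zz (q := q) (κ := κ) h4 h2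
      have h6 : (T / N + 1) * N + T % N = T + N := by
        rw [Nat.add_mul, Nat.one_mul]
        have h6 := idx_self (N := N) T
        omega
      rw [h6] at h5
      exact ⟨T / N, T % N, h4, h2, h3, hy.unique h5⟩
    · rintro ⟨i, j, hi, hj, rfl, rfl⟩
      have hi' : i < N := by omega
      have h1 := is_zz (q := q) (κ := κ) hi' hj
      have h2 := is_zz (q := q) (κ := κ) hi hj
      have h3 : (i + 1) * N + j = i * N + j + N := by
        rw [Nat.add_mul, Nat.one_mul]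
        omega
      rw [h3] at h2
      exact ⟨_, h1, h2⟩
  · -- irr
    exact (lin_spi h 0).1
  · -- trans
    exact (lin_spi h 0).2.1
  · -- ltR
    intro i j hi hj
    exact lt_of_idx (is_zz hi (by omega)) (is_zz hi hj) (by omega)
  · -- ltU
    intro i j hi hj
    have h3 : (i + 1) * N + j = i * N + j + N := by
      rw [Nat.add_mul, Nat.one_mul]
      omega
    exact lt_of_idx (is_zz (by omega) hj) (is_zz hi hj) (by omega)
  · -- D_iff
    intro i j hi hj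
    have hT := idx_lt hi hj
    have h1 := hκ _ hT
    rw [idx_div hj, idx_mod hj] at h1
    constructor
    · rintro ⟨m, hm, he⟩
      have h2 := (ev_zz h hi hj m).mp he
      have h3 : m = ⟨κ (i * N + j), h.2 _ hT⟩ := Fin.ext h2
      rw [h3, h1] at hm
      exact of_decide_eq_true hm
    · intro e
      refine ⟨⟨κ (i * N + j), h.2 _ hT⟩, ?_, (ev_zz h hi hj _).mpr rfl⟩
      rw [h1]
      exact decide_eq_true e
  · -- t_iff
    intro i j γ hi hj
    have hT := idx_lt hi hj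
    have h1 := hκ _ hT
    rw [idx_div hj, idx_mod hj] at h1
    constructor
    · rintro ⟨m, hm, he⟩
      have h2 := (ev_zz h hi hj m).mp he
      have h3 : m = ⟨κ (i * N + j), h.2 _ hT⟩ := Fin.ext h2
      rw [h3, h1] at hm
      exact hm.symm
    · rintro rfl
      refine ⟨⟨κ (i * N + j), h.2 _ hT⟩, ?_, (ev_zz h hi hj _).mpr rfl⟩
      rw [h1]
  · -- Own_iff
    intro v x
    rw [own_iff h]
    constructor
    · rintro ⟨T, a, l, hx, hv⟩
      obtain ⟨h1, h2, h3⟩ := eq_zz hN0 hx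
      exact ⟨_, _, h1, h2, ownc_is hv, h3⟩
    · rintro ⟨i, j, hi, hj, h1, rfl⟩
      obtain ⟨a, l, hv⟩ := (ownc_iff hj).mp h1
      exact ⟨_, a, l, is_zz hi hj, hv⟩
  · -- own_ex
    rintro v rfl
    rfl
  · -- own_some
    intro v hv
    obtain ⟨a, T, l, hv⟩ := ex_is v hv
    exact ⟨T / N, T % N, Nat.div_lt_of_lt_mul hv.bT, Nat.mod_lt _ hN0, ownc_is hv⟩
  · -- cnt
    intro i j hi hj
    exact card_cell h hi hj
  · -- ext
    have : Unique {v : Elt q κ N // v = none} := ⟨⟨⟨none, rfl⟩⟩, fun v => Subtype.ext v.2⟩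
    exact Nat.card_unique

end Pool.Agent.Helper20.OP.H
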