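import Pool.Agent.Helper20.OP.H.Suc

/-!
# Block OP-H3: links, modules and the parts of a cell in the model

Proofs.  `link_iff`: from `ne_iff`, `su_ne`, `sr_ne`, `sw_iff`, `sd_sw`, `sl_sw`: in `NE`, `Su x y` with `y ∈ NE` means
`x = NE T l`, `y = NE T (l + 1)`; in `SW`, `Sd x y` with `y ∈ SW` means `x = SW T l`, `y = SW T (l + 1)`.  `reach`: induction on `l`.
`blk_ne`, `blk_sw`: the first element of a module has `l = 0` (`NE T l` with `l ≥ 1` has a link from `NE T (l - 1)`), the last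
one `l = κ T`, resp. `l + 1 = q - κ T`.
-/

set_option autoImplicit false

namespace Pool.Agent.Helper20.OP.H

variable {q : ℕ} {κ : ℕ → ℕ} {N : ℕ}

lemma Is.bT {x : Elt q κ N} {a T l : ℕ} (hx : Is x a T l) : T < N * N := by
  obtain ⟨_, h, _, _⟩ := hx
  exact h

lemma Is.b0 {x : Elt q κ N} {T l : ℕ} (hx : Is x 0 T l) : l ≤ κ T := by
  obtain ⟨_, _, h, _⟩ := hx
  have h' : l < κ T + 1 := h
  omega

lemma Is.b2 {x : Elt q κ N} {T l : ℕ} (hx : Is x 2 T l) : l < q - κ T := by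
  obtain ⟨_, _, h, _⟩ := hx
  exact h

lemma ex0 {T l : ℕ} (hT : T < N * N) (hl : l ≤ κ T) : ∃ x : Elt q κ N, Is x 0 T l :=
  ⟨mk 0 T l (by omega) hT (Nat.lt_succ_of_le hl), _, _, _, rfl⟩

lemma ex1 {T : ℕ} (hT : T < N * N) : ∃ x : Elt q κ N, Is x 1 T 0 :=
  ⟨mk 1 T 0 (by omega) hT Nat.one_pos, _, _, _, rfl⟩

lemma ex2 {T l : ℕ} (hT : T < N * N) (hl : l < q - κ T) : ∃ x : Elt q κ N, Is x 2 T l :=
  ⟨mk 2 T l (by omega) hT hl, _, _, _, rfl⟩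

lemma ex3 {T : ℕ} (hT : T < N * N) : ∃ x : Elt q κ N, Is x 3 T 0 :=
  ⟨mk 3 T 0 (by omega) hT Nat.one_pos, _, _, _, rfl⟩

lemma ex_pred {x : Elt q κ N} {a T l : ℕ} (hx : Is x a T (l + 1)) : ∃ w : Elt q κ N, Is w a T l := by
  obtain ⟨h1, h2, h3, _⟩ := hx
  exact ⟨mk a T l h1 h2 (by omega), _, _, _, rfl⟩

theorem link_iff (h : Good q κ N) (x y : Elt q κ N) : Link (spi q κ N) none x y ↔
    ∃ a T l, (a = 0 ∨ a = 2) ∧ Is x a T l ∧ Is y a T (l + 1) := by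
  constructor
  · rintro (⟨hx, hy, hu, _⟩ | ⟨hx, hy, _, hd⟩)
    · obtain ⟨T, l, hx⟩ := (ne_iff x).mp hx
      obtain ⟨T', l', hy⟩ := (ne_iff y).mp hy
      rcases (su_ne h hx).mp hu with ⟨_, h1⟩ | ⟨_, h1⟩
      · exact ⟨0, T, l, Or.inl rfl, hx, h1⟩
      · exact absurd (h1.inj hy).1 (by omega)
    · obtain ⟨T, l, hx⟩ := (sw_iff x).mp hx
      obtain ⟨T', l', hy⟩ := (sw_iff y).mp hy
      rcases (sd_sw h hx).mp hd with ⟨_, h1⟩ | ⟨_, h1⟩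
      · exact ⟨2, T, l, Or.inr rfl, hx, h1⟩
      · exact absurd (h1.inj hy).1 (by omega)
  · rintro ⟨a, T, l, rfl | rfl, hx, hy⟩
    · left
      have := hy.b0
      exact ⟨(ne_iff x).mpr ⟨T, l, hx⟩, (ne_iff y).mpr ⟨T, l + 1, hy⟩,
        (su_ne h hx).mpr (Or.inl ⟨by omega, hy⟩), sr_ne h hx hy⟩
    · right
      have := hy.b2
      exact ⟨(sw_iff x).mpr ⟨T, l, hx⟩, (sw_iff y).mpr ⟨T, l + 1, hy⟩, sl_sw h hx hy,
        (sd_sw h hx).mpr (Or.inl ⟨by omega, hy⟩)⟩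

theorem reach_ne (h : Good q κ N) {a T l : ℕ} (ha : a = 0 ∨ a = 2) {x : Elt q κ N}
    (hx : Is x a T l) (m : ℕ) (y : Elt q κ N) :
    Reach (spi q κ N) none m x y ↔ Is y a T (l + m) := by
  induction m generalizing y with
  | zero =>
    constructor
    · rintro (rfl : x = y)
      exact hx
    · intro hy
      exact hx.unique hy
  | succ m ih =>
    constructor
    · rintro ⟨w, hw, hl⟩
      have hw' := (ih w).mp hw
      obtain ⟨a', T', l', _, h1, h2⟩ := (link_iff h w y).mp hl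
      obtain ⟨e1, e2, e3⟩ := hw'.inj h1
      subst e1 e2 e3
      exact h2
    · intro hy
      obtain ⟨w, hw⟩ := ex_pred (l := l + m) hy
      exact ⟨w, (ih w).mpr hw, (link_iff h w y).mpr ⟨a, T, l + m, ha, hw, hy⟩⟩

theorem blk_ne (h : Good q κ N) {x : Elt q κ N} (hx : ∃ T l, Is x 0 T l) (m : ℕ)
    (y : Elt q κ N) : Blk (spi q κ N) none m x y ↔ ∃ T, Is x 0 T 0 ∧ Is y 0 T (κ T) ∧ m = κ T := by
  obtain ⟨T, l, hx⟩ := hx
  constructor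
  · rintro ⟨h1, h2, h3⟩
    have hl : l = 0 := by
      rcases l with _ | l
      · rfl
      · obtain ⟨w, hw⟩ := ex_pred hx
        exact absurd ((link_iff h w x).mpr ⟨0, T, l, Or.inl rfl, hw, hx⟩) (h1 w)
    subst hl
    have hy := (reach_ne h (Or.inl rfl) hx m y).mp h2
    rw [Nat.zero_add] at hy
    have hb := hy.b0
    have hm : m = κ T := by
      by_contra hne
      obtain ⟨w, hw⟩ := ex0 (q := q) (κ := κ) (N := N) (l := m + 1) hx.bT (by omega)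
      exact h3 w ((link_iff h y w).mpr ⟨0, T, m, Or.inl rfl, hy, hw⟩)
    subst hm
    exact ⟨T, hx, hy, rfl⟩
  · rintro ⟨T', h1, h2, h3⟩
    obtain ⟨_, e2, e3⟩ := hx.inj h1
    subst e2 e3 h3
    refine ⟨fun w hw => ?_, ?_, fun w hw => ?_⟩
    · obtain ⟨a, T', l', _, _, g⟩ := (link_iff h w x).mp hw
      exact absurd (hx.inj g).2.2 (by omega)
    · rw [reach_ne h (Or.inl rfl) hx, Nat.zero_add]
      exact h2
    · obtain ⟨a, T', l', _, g1, g2⟩ := (link_iff h y w).mp hw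
      obtain ⟨e1, e2, e3⟩ := h2.inj g1
      subst e1 e2 e3
      have := g2.b0
      omega

theorem blk_sw (h : Good q κ N) {x : Elt q κ N} (hx : ∃ T l, Is x 2 T l) (m : ℕ)
    (y : Elt q κ N) : Blk (spi q κ N) none m x y ↔
      ∃ T, Is x 2 T 0 ∧ Is y 2 T (q - κ T - 1) ∧ m = q - κ T - 1 := by
  obtain ⟨T, l, hx⟩ := hx
  have hκ := h.2 T hx.bT
  constructor
  · rintro ⟨h1, h2, h3⟩
    have hl : l = 0 := by
      rcases l with _ | l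
      · rfl
      · obtain ⟨w, hw⟩ := ex_pred hx
        exact absurd ((link_iff h w x).mpr ⟨2, T, l, Or.inr rfl, hw, hx⟩) (h1 w)
    subst hl
    have hy := (reach_ne h (Or.inr rfl) hx m y).mp h2
    rw [Nat.zero_add] at hy
    have hb := hy.b2
    have hm : m = q - κ T - 1 := by
      by_contra hne
      obtain ⟨w, hw⟩ := ex2 (q := q) (κ := κ) (N := N) (l := m + 1) hx.bT (by omega)
      exact h3 w ((link_iff h y w).mpr ⟨2, T, m, Or.inr rfl, hy, hw⟩)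
    rw [hm] at hy
    exact ⟨T, hx, hy, hm⟩
  · rintro ⟨T', h1, h2, h3⟩
    obtain ⟨_, e2, e3⟩ := hx.inj h1
    subst e2 e3 h3
    refine ⟨fun w hw => ?_, ?_, fun w hw => ?_⟩
    · obtain ⟨a, T', l', _, _, g⟩ := (link_iff h w x).mp hw
      exact absurd (hx.inj g).2.2 (by omega)
    · rw [reach_ne h (Or.inr rfl) hx, Nat.zero_add]
      exact h2
    · obtain ⟨a, T', l', _, g1, g2⟩ := (link_iff h y w).mp hw
      obtain ⟨e1, e2, e3⟩ := h2.inj g1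
      subst e1 e2 e3
      have := g2.b2
      omega

theorem ev_iff (h : Good q κ N) (m : ℕ) (x : Elt q κ N) :
    Ev (spi q κ N) none m x ↔ ∃ T, Is x 0 T 0 ∧ m = κ T := by
  constructor
  · rintro ⟨h1, y, hy⟩
    obtain ⟨T, hx, _, e⟩ := (blk_ne h ((ne_iff x).mp h1) m y).mp hy
    exact ⟨T, hx, e⟩
  · rintro ⟨T, hx, e⟩
    obtain ⟨y, hy⟩ := ex0 (q := q) (κ := κ) (N := N) (l := κ T) hx.bT le_rfl
    exact ⟨(ne_iff x).mpr ⟨T, 0, hx⟩, y, (blk_ne h ⟨T, 0, hx⟩ m y).mpr ⟨T, hx, hy, e⟩⟩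

theorem z_iff (h : Good q κ N) (x : Elt q κ N) : Z (spi q κ N) q none x ↔ ∃ T, Is x 0 T 0 := by
  constructor
  · rintro ⟨m, hm⟩
    obtain ⟨T, hx, _⟩ := (ev_iff h m x).mp hm
    exact ⟨T, hx⟩
  · rintro ⟨T, hx⟩
    exact ⟨⟨κ T, h.2 T hx.bT⟩, (ev_iff h _ x).mpr ⟨T, hx, rfl⟩⟩

theorem bp_iff (h : Good q κ N) (x y : Elt q κ N) :
    Bp (spi q κ N) q none x y ↔ ∃ T, Is x 0 T 0 ∧ Is y 1 T 0 := by
  constructor
  · rintro ⟨hz, _, m, x', hb, hs⟩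
    obtain ⟨T, hx⟩ := (z_iff h x).mp hz
    obtain ⟨T', h1, h2, _⟩ := (blk_ne h ⟨T, 0, hx⟩ m x').mp hb
    rcases (su_ne h h2).mp hs with ⟨h3, _⟩ | ⟨_, h3⟩
    · exact absurd h3 (lt_irrefl _)
    · exact ⟨T', h1, h3⟩
  · rintro ⟨T, hx, hy⟩
    obtain ⟨x', hx'⟩ := ex0 (q := q) (κ := κ) (N := N) (l := κ T) hx.bT le_rfl
    exact ⟨(z_iff h x).mpr ⟨T, hx⟩, (nw_iff y).mpr ⟨T, hy⟩, ⟨κ T, h.2 T hx.bT⟩, x',
      (blk_ne h ⟨T, 0, hx⟩ _ x').mpr ⟨T, hx, hx', rfl⟩, (su_ne h hx').mpr (Or.inr ⟨rfl, hy⟩)⟩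

theorem cp_iff (h : Good q κ N) (x y : Elt q κ N) :
    Cp (spi q κ N) q none x y ↔ ∃ T, Is x 0 T 0 ∧ Is y 2 T 0 := by
  constructor
  · rintro ⟨_, m, _, _, w, hw, hs⟩
    obtain ⟨T, h1, h2⟩ := (bp_iff h x w).mp hw
    exact ⟨T, h1, (sl_nw h h2).mp hs⟩
  · rintro ⟨T, hx, hy⟩
    have hκ := h.2 T hx.bT
    obtain ⟨w, hw⟩ := ex1 (q := q) (κ := κ) (N := N) hx.bT
    obtain ⟨y', hy'⟩ := ex2 (q := q) (κ := κ) (N := N) (l := q - κ T - 1) hx.bT (by omega)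
    exact ⟨(sw_iff y).mpr ⟨T, 0, hy⟩, ⟨κ T, hκ⟩, (ev_iff h _ x).mpr ⟨T, hx, rfl⟩,
      ⟨y', (blk_sw h ⟨T, 0, hy⟩ _ y').mpr ⟨T, hy, hy', rfl⟩⟩, w,
      (bp_iff h x w).mpr ⟨T, hx, hw⟩, (sl_nw h hw).mpr hy⟩

theorem dp_iff (h : Good q κ N) (x y : Elt q κ N) :
    Dp (spi q κ N) q none x y ↔ ∃ T, Is x 0 T 0 ∧ Is y 3 T 0 := by
  constructor
  · rintro ⟨_, w, w', hc, ⟨m, hb⟩, hs⟩
    obtain ⟨T, h1, h2⟩ := (cp_iff h x w).mp hc
    obtain ⟨T', g1, g2, _⟩ := (blk_sw h ⟨T, 0, h2⟩ m w').mp hb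
    obtain ⟨_, e, _⟩ := h2.inj g1
    subst e
    have hκ := h.2 T h1.bT
    rcases (sd_sw h g2).mp hs with ⟨h3, _⟩ | ⟨_, h3⟩
    · omega
    · exact ⟨T, h1, h3⟩
  · rintro ⟨T, hx, hy⟩
    have hκ := h.2 T hx.bT
    obtain ⟨w, hw⟩ := ex2 (q := q) (κ := κ) (N := N) (l := 0) hx.bT (by omega)
    obtain ⟨w', hw'⟩ := ex2 (q := q) (κ := κ) (N := N) (l := q - κ T - 1) hx.bT (by omega)
    exact ⟨(se_iff y).mpr ⟨T, hy⟩, w, w', (cp_iff h x w).mpr ⟨T, hx, hw⟩,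
      ⟨⟨q - κ T - 1, by omega⟩, (blk_sw h ⟨T, 0, hw⟩ _ w').mpr ⟨T, hw, hw', rfl⟩⟩,
      (sd_sw h hw').mpr (Or.inr ⟨by omega, hy⟩)⟩

end Pool.Agent.Helper20.OP.H
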