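import Pool.Agent.Helper20.OP.GridDef

/-!
# Spiral permutations: the relations (and block OP-H0: they are definable)

`R 0`, `R 1`: two strict linear orders (horizontal, vertical); `z` the centre.  The four arms `NE`, `NW`, `SW`, `SE`.
The immediate successors outwards: `Su` (up), `Sl` (left), `Sd` (down), `Sr` (right).  Links: inside `NE` an immediate
successor to the right and upwards; inside `SW` an immediate successor to the left and downwards; modules are the
maximal chains of links.  A cell: a module with `κ + 1` elements in `NE`, an element `Bp` of `NW`, a module with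
`q - κ` elements in `SW`, an element `Dp` of `SE`.  `c κ = (tile, diagonal?, last column?)`.
-/

set_option autoImplicit false

namespace Pool.Agent.Helper20.OP.H

open Pool.Agent.Helper29.Prefix

variable {V : Type}

def NE (R : Str 2 V) (z x : V) : Prop := R 0 z x ∧ R 1 z x
def NW (R : Str 2 V) (z x : V) : Prop := R 0 x z ∧ R 1 z x
def SW (R : Str 2 V) (z x : V) : Prop := R 0 x z ∧ R 1 x z
def SE (R : Str 2 V) (z x : V) : Prop := R 0 z x ∧ R 1 x z

/-- next element to the right -/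
def Sr (R : Str 2 V) (x y : V) : Prop := R 0 x y ∧ ∀ w, ¬ (R 0 x w ∧ R 0 w y)
/-- next element upwards -/
def Su (R : Str 2 V) (x y : V) : Prop := R 1 x y ∧ ∀ w, ¬ (R 1 x w ∧ R 1 w y)
/-- next element to the left -/
def Sl (R : Str 2 V) (x y : V) : Prop := Sr R y x
/-- next element downwards -/
def Sd (R : Str 2 V) (x y : V) : Prop := Su R y x

def Link (R : Str 2 V) (z x y : V) : Prop :=
  (NE R z x ∧ NE R z y ∧ Su R x y ∧ Sr R x y) ∨ (SW R z x ∧ SW R z y ∧ Sl R x y ∧ Sd R x y)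

def Reach (R : Str 2 V) (z : V) : ℕ → V → V → Prop
  | 0, x, y => x = y
  | l + 1, x, y => ∃ w, Reach R z l x w ∧ Link R z w y

/-- the module with first element `x` and last element `y` has `l + 1` elements -/
def Blk (R : Str 2 V) (z : V) (l : ℕ) (x y : V) : Prop :=
  (∀ w, ¬ Link R z w x) ∧ Reach R z l x y ∧ ∀ w, ¬ Link R z y w

/-- first element of a cell of the colour `κ` -/
def Ev (R : Str 2 V) (z : V) (κ : ℕ) (x : V) : Prop := NE R z x ∧ ∃ y, Blk R z κ x y

def Z (R : Str 2 V) (q : ℕ) (z x : V) : Prop := ∃ κ : Fin q, Ev R z κ x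

def Bp (R : Str 2 V) (q : ℕ) (z x y : V) : Prop :=
  Z R q z x ∧ NW R z y ∧ ∃ κ : Fin q, ∃ x', Blk R z κ x x' ∧ Su R x' y

/-- first element of the `SW` module of the cell `x` -/
def Cp (R : Str 2 V) (q : ℕ) (z x y : V) : Prop :=
  SW R z y ∧ ∃ κ : Fin q, Ev R z κ x ∧ (∃ y', Blk R z (q - κ.1 - 1) y y') ∧
    ∃ w, Bp R q z x w ∧ Sl R w y

def Dp (R : Str 2 V) (q : ℕ) (z x y : V) : Prop :=
  SE R z y ∧ ∃ w w', Cp R q z x w ∧ (∃ κ : Fin q, Blk R z κ w w') ∧ Sd R w' y

variable {Γ : Type} {q : ℕ} (c : Fin q → Γ × Bool × Bool)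

def RR (R : Str 2 V) (z x y : V) : Prop :=
  Z R q z x ∧ Z R q z y ∧ (∃ κ : Fin q, (c κ).2.2 = false ∧ Ev R z κ x) ∧
    ∃ w, Bp R q z x w ∧ Su R w y

def UU (R : Str 2 V) (q : ℕ) (z x y : V) : Prop :=
  Z R q z x ∧ Z R q z y ∧ ∃ w, Dp R q z x w ∧ Sr R w y

def D (R : Str 2 V) (z x : V) : Prop := ∃ κ : Fin q, (c κ).2.1 = true ∧ Ev R z κ x

def t (R : Str 2 V) (z x : V) (γ : Γ) : Prop := ∃ κ : Fin q, (c κ).1 = γ ∧ Ev R z κ x

def Own (R : Str 2 V) (q : ℕ) (z v x : V) : Prop :=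
  Z R q z x ∧ ((∃ l : Fin q, Reach R z l x v) ∨ Bp R q z x v ∨
    (∃ w, Cp R q z x w ∧ ∃ l : Fin q, Reach R z l w v) ∨ Dp R q z x v)

/-- the condition on a pair of orders -/
def Cond (W : Wang Γ) (R : Str 2 V) : Prop :=
  ∃ z, GridCode W (q + 3) 1 (Z R q z) (R 0) (RR c R z) (UU R q z) (D c R z) (t c R z)
    (Own R q z) (fun v => v = z)

section

variable {r : ℕ}

private theorem NE_h75 (i j : Fin r) : OP.Def 2 r (fun _ R v => NE R (v i) (v j)) :=
  (Def.rel 0 i j).and (Def.rel 1 i j)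

private theorem NW_h75 (i j : Fin r) : OP.Def 2 r (fun _ R v => NW R (v i) (v j)) :=
  (Def.rel 0 j i).and (Def.rel 1 i j)

private theorem SW_h75 (i j : Fin r) : OP.Def 2 r (fun _ R v => SW R (v i) (v j)) :=
  (Def.rel 0 j i).and (Def.rel 1 j i)

private theorem SE_h75 (i j : Fin r) : OP.Def 2 r (fun _ R v => SE R (v i) (v j)) :=
  (Def.rel 0 i j).and (Def.rel 1 j i)

private theorem Sr_h75 (i j : Fin r) : OP.Def 2 r (fun _ R v => Sr R (v i) (v j)) :=
  (Def.rel 0 i j).and (Def.all (P := fun _ R v w => ¬ (R 0 (v i) w ∧ R 0 w (v j)))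
    ((Def.rel 0 i.castSucc (Fin.last r)).and (Def.rel 0 (Fin.last r) j.castSucc)).not)

private theorem Su_h75 (i j : Fin r) : OP.Def 2 r (fun _ R v => Su R (v i) (v j)) :=
  (Def.rel 1 i j).and (Def.all (P := fun _ R v w => ¬ (R 1 (v i) w ∧ R 1 w (v j)))
    ((Def.rel 1 i.castSucc (Fin.last r)).and (Def.rel 1 (Fin.last r) j.castSucc)).not)

private theorem Sl_h75 (i j : Fin r) : OP.Def 2 r (fun _ R v => Sl R (v i) (v j)) := Sr_h75 j i

private theorem Sd_h75 (i j : Fin r) : OP.Def 2 r (fun _ R v => Sd R (v i) (v j)) := Su_h75 j i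

private theorem Link_h75 (i j k : Fin r) :
    OP.Def 2 r (fun _ R v => Link R (v i) (v j) (v k)) :=
  ((NE_h75 i j).and ((NE_h75 i k).and ((Su_h75 j k).and (Sr_h75 j k)))).or
    ((SW_h75 i j).and ((SW_h75 i k).and ((Sl_h75 j k).and (Sd_h75 j k))))

private theorem Reach_h75 (l : ℕ) : ∀ {r : ℕ} (i j k : Fin r),
    OP.Def 2 r (fun _ R v => Reach R (v i) l (v j) (v k)) := by
  induction l with
  | zero => exact fun i j k => Def.eq j k
  | succ l ih =>
    intro r i j k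
    exact Def.ex (P := fun _ R v w => Reach R (v i) l (v j) w ∧ Link R (v i) w (v k))
      ((ih i.castSucc j.castSucc (Fin.last r)).and
        (Link_h75 i.castSucc (Fin.last r) k.castSucc))

private theorem Blk_h75 (l : ℕ) (i j k : Fin r) :
    OP.Def 2 r (fun _ R v => Blk R (v i) l (v j) (v k)) :=
  (Def.all (P := fun _ R v w => ¬ Link R (v i) w (v j))
    (Link_h75 i.castSucc (Fin.last r) j.castSucc).not).and
  ((Reach_h75 l i j k).and (Def.all (P := fun _ R v w => ¬ Link R (v i) (v k) w)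
    (Link_h75 i.castSucc k.castSucc (Fin.last r)).not))

private theorem Ev_h75 (κ : ℕ) (i j : Fin r) : OP.Def 2 r (fun _ R v => Ev R (v i) κ (v j)) :=
  (NE_h75 i j).and (Def.ex (P := fun _ R v y => Blk R (v i) κ (v j) y)
    (Blk_h75 κ i.castSucc j.castSucc (Fin.last r)))

private theorem Z_h75 (q : ℕ) (i j : Fin r) : OP.Def 2 r (fun _ R v => Z R q (v i) (v j)) :=
  Def.ex_fin (γ := Fin q) (P := fun κ _ R v => Ev R (v i) κ (v j)) fun κ => Ev_h75 κ i j

private theorem Bp_h75 (q : ℕ) (i j k : Fin r) :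
    OP.Def 2 r (fun _ R v => Bp R q (v i) (v j) (v k)) :=
  (Z_h75 q i j).and ((NW_h75 i k).and (Def.ex_fin (γ := Fin q)
    (P := fun κ _ R v => ∃ x', Blk R (v i) κ (v j) x' ∧ Su R x' (v k)) fun κ =>
      Def.ex (P := fun _ R v x' => Blk R (v i) κ (v j) x' ∧ Su R x' (v k))
        ((Blk_h75 κ i.castSucc j.castSucc (Fin.last r)).and (Su_h75 (Fin.last r) k.castSucc))))

private theorem Cp_h75 (q : ℕ) (i j k : Fin r) :
    OP.Def 2 r (fun _ R v => Cp R q (v i) (v j) (v k)) :=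
  (SW_h75 i k).and (Def.ex_fin (γ := Fin q)
    (P := fun κ _ R v => Ev R (v i) κ (v j) ∧ (∃ y', Blk R (v i) (q - κ.1 - 1) (v k) y') ∧
      ∃ w, Bp R q (v i) (v j) w ∧ Sl R w (v k)) fun κ =>
    (Ev_h75 κ i j).and ((Def.ex (P := fun _ R v y' => Blk R (v i) (q - κ.1 - 1) (v k) y')
      (Blk_h75 _ i.castSucc k.castSucc (Fin.last r))).and
      (Def.ex (P := fun _ R v w => Bp R q (v i) (v j) w ∧ Sl R w (v k))
        ((Bp_h75 q i.castSucc j.castSucc (Fin.last r)).and (Sl_h75 (Fin.last r) k.castSucc)))))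

private theorem Dp_h75 (q : ℕ) (i j k : Fin r) :
    OP.Def 2 r (fun _ R v => Dp R q (v i) (v j) (v k)) :=
  (SE_h75 i k).and (Def.ex (P := fun _ R v w => ∃ w', Cp R q (v i) (v j) w ∧
    (∃ κ : Fin q, Blk R (v i) κ w w') ∧ Sd R w' (v k))
    (Def.ex (P := fun _ R v w' => Cp R q (v i.castSucc) (v j.castSucc) (v (Fin.last r)) ∧
      (∃ κ : Fin q, Blk R (v i.castSucc) κ (v (Fin.last r)) w') ∧ Sd R w' (v k.castSucc))
      ((Cp_h75 q i.castSucc.castSucc j.castSucc.castSucc (Fin.last r).castSucc).and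
        ((Def.ex_fin (γ := Fin q) (P := fun κ _ R v =>
          Blk R (v i.castSucc.castSucc) κ (v (Fin.last r).castSucc) (v (Fin.last (r + 1))))
          fun κ => Blk_h75 κ i.castSucc.castSucc (Fin.last r).castSucc (Fin.last (r + 1))).and
          (Sd_h75 (Fin.last (r + 1)) k.castSucc.castSucc)))))

private theorem RR_h75 (i j k : Fin r) :
    OP.Def 2 r (fun _ R v => RR c R (v i) (v j) (v k)) :=
  (Z_h75 q i j).and ((Z_h75 q i k).and ((Def.ex_fin (γ := Fin q)
    (P := fun κ _ R v => (c κ).2.2 = false ∧ Ev R (v i) κ (v j)) fun κ =>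
      (Def.const ((c κ).2.2 = false)).and (Ev_h75 κ i j)).and
    (Def.ex (P := fun _ R v w => Bp R q (v i) (v j) w ∧ Su R w (v k))
      ((Bp_h75 q i.castSucc j.castSucc (Fin.last r)).and (Su_h75 (Fin.last r) k.castSucc)))))

private theorem UU_h75 (q : ℕ) (i j k : Fin r) :
    OP.Def 2 r (fun _ R v => UU R q (v i) (v j) (v k)) :=
  (Z_h75 q i j).and ((Z_h75 q i k).and
    (Def.ex (P := fun _ R v w => Dp R q (v i) (v j) w ∧ Sr R w (v k))
      ((Dp_h75 q i.castSucc j.castSucc (Fin.last r)).and (Sr_h75 (Fin.last r) k.castSucc))))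

private theorem D_h75 (i j : Fin r) : OP.Def 2 r (fun _ R v => D c R (v i) (v j)) :=
  Def.ex_fin (γ := Fin q) (P := fun κ _ R v => (c κ).2.1 = true ∧ Ev R (v i) κ (v j)) fun κ =>
    (Def.const ((c κ).2.1 = true)).and (Ev_h75 κ i j)

private theorem t_h75 (γ : Γ) (i j : Fin r) : OP.Def 2 r (fun _ R v => t c R (v i) (v j) γ) :=
  Def.ex_fin (γ := Fin q) (P := fun κ _ R v => (c κ).1 = γ ∧ Ev R (v i) κ (v j)) fun κ =>
    (Def.const ((c κ).1 = γ)).and (Ev_h75 κ i j)

private theorem Own_h75 (q : ℕ) (i j k : Fin r) :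
    OP.Def 2 r (fun _ R v => Own R q (v i) (v j) (v k)) :=
  (Z_h75 q i k).and ((Def.ex_fin (γ := Fin q) (P := fun l _ R v =>
    Reach R (v i) l (v k) (v j)) fun l => Reach_h75 l i k j).or
    ((Bp_h75 q i k j).or ((Def.ex (P := fun _ R v w => Cp R q (v i) (v k) w ∧
      ∃ l : Fin q, Reach R (v i) l w (v j))
      ((Cp_h75 q i.castSucc k.castSucc (Fin.last r)).and (Def.ex_fin (γ := Fin q)
        (P := fun l _ R v => Reach R (v i.castSucc) l (v (Fin.last r)) (v j.castSucc)) fun l =>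
          Reach_h75 l i.castSucc (Fin.last r) j.castSucc))).or (Dp_h75 q i k j))))

end

theorem def_cond [Finite Γ] (W : Wang Γ) : Def0 2 (fun _ R => Cond c W R) := by
  refine Def.ex (P := fun _ R _ z => GridCode W (q + 3) 1 (Z R q z) (R 0) (RR c R z) (UU R q z)
    (D c R z) (t c R z) (Own R q z) (fun v => v = z)) ?_
  exact def_gridCode (r := 1) W (q + 3) 1 (Z := fun _ R v => Z R q (v 0))
    (lt := fun _ R _ => R 0) (RR := fun _ R v => RR c R (v 0)) (UU := fun _ R v => UU R q (v 0))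
    (D := fun _ R v => D c R (v 0)) (t := fun _ R v => t c R (v 0))
    (Own := fun _ R v => Own R q (v 0)) (Ex := fun _ _ v x => x = v 0)
    (Z_h75 q (0 : Fin 1).castSucc (Fin.last 1))
    (Def.rel 0 (Fin.last 1).castSucc (Fin.last 2))
    (RR_h75 c (0 : Fin 1).castSucc.castSucc (Fin.last 1).castSucc (Fin.last 2))
    (UU_h75 q (0 : Fin 1).castSucc.castSucc (Fin.last 1).castSucc (Fin.last 2))
    (D_h75 c (0 : Fin 1).castSucc (Fin.last 1))
    (fun γ => t_h75 c γ (0 : Fin 1).castSucc (Fin.last 1))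
    (Own_h75 q (0 : Fin 1).castSucc.castSucc (Fin.last 1).castSucc (Fin.last 2))
    (Def.eq (Fin.last 1) (0 : Fin 1).castSucc)

end Pool.Agent.Helper20.OP.H
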