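import Pool.Agent.Helper20.OP.H.Model

/-!
# Block OP-H1: the model is a pair of linear orders

Proof.  `cx` and `cy` are injective: the sign and the quotient by `K = 2 q + 2` determine the arm and `T`, the rest
determines `l` (`l < q` for `NE` and `SW`, as `κ T < q`): right side: `NE`: `K T + l + 1` with `l + 1 ≤ q`, `SE`: multiples of `K`;
left side: `NW`: `K T + 1`, `SW`: `K T + l + 2` with `2 ≤ l + 2 ≤ q + 1`; top: `NE`: `K T + l + 1`, `NW`: `K T + q + 1`; bottom: `SW`: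
`K T + l + 1`, `SE`: `K T + q + 1`.
`card_elt`: `1 + ∑_{T < N²} ((κ T + 1) + 1 + (q - κ T) + 1)`.
-/

set_option autoImplicit false

namespace Pool.Agent.Helper20.OP.H

variable {q : ℕ} {κ : ℕ → ℕ} {N : ℕ}

/-- the elements other than the centre -/
def eltEquiv (q : ℕ) (κ : ℕ → ℕ) (N : ℕ) :
    {x : ℕ × ℕ × ℕ // x.1 < 4 ∧ x.2.1 < N * N ∧ x.2.2 < num q κ x.1 x.2.1} ≃
      Σ T : Fin (N * N), Σ a : Fin 4, Fin (num q κ a T) where
  toFun x := ⟨⟨x.1.2.1, x.2.2.1⟩, ⟨x.1.1, x.2.1⟩, ⟨x.1.2.2, x.2.2.2⟩⟩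
  invFun y := ⟨(y.2.1, y.1, y.2.2), y.2.1.2, y.1.2, y.2.2.2⟩
  left_inv := fun _ => rfl
  right_inv := fun _ => rfl

instance instFiniteSub : Finite {x : ℕ × ℕ × ℕ // x.1 < 4 ∧ x.2.1 < N * N ∧
    x.2.2 < num q κ x.1 x.2.1} := Finite.of_equiv _ (eltEquiv q κ N).symm

instance : Finite (Elt q κ N) := by
  unfold Elt
  infer_instance

/-- the five kinds of elements and their coordinates -/
lemma coord_cases (h : Good q κ N) (x : Elt q κ N) :
    (x = none ∧ cx x = 0 ∧ cy x = 0) ∨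
    (∃ T l : ℕ, (∃ hx, x = some ⟨(0, T, l), hx⟩) ∧ T < N * N ∧ l ≤ κ T ∧ κ T < q ∧
      cx x = ((2 * q + 2) * T + (l + 1) : ℕ) ∧ cy x = ((2 * q + 2) * T + (l + 1) : ℕ)) ∨
    (∃ T : ℕ, (∃ hx, x = some ⟨(1, T, 0), hx⟩) ∧ T < N * N ∧
      cx x = -(((2 * q + 2) * T + 1 : ℕ) : ℤ) ∧ cy x = ((2 * q + 2) * T + (q + 1) : ℕ)) ∨
    (∃ T l : ℕ, (∃ hx, x = some ⟨(2, T, l), hx⟩) ∧ T < N * N ∧ l < q - κ T ∧ κ T < q ∧
      cx x = -(((2 * q + 2) * T + (l + 2) : ℕ) : ℤ) ∧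
      cy x = -(((2 * q + 2) * T + (l + 1) : ℕ) : ℤ)) ∨
    (∃ T : ℕ, (∃ hx, x = some ⟨(3, T, 0), hx⟩) ∧ T < N * N ∧ 0 < (2 * q + 2) * (T + N) ∧
      cx x = ((2 * q + 2) * (T + N) : ℕ) ∧ cy x = -(((2 * q + 2) * T + (q + 1) : ℕ) : ℤ)) := by
  rcases x with _ | ⟨⟨a, T, l⟩, ha, hT, hl⟩
  · left
    exact ⟨rfl, rfl, rfl⟩
  · right
    simp only at ha hT hl
    have hκ := h.2 T hT
    interval_cases a
    · left
      have hl' : l < κ T + 1 := hl
      exact ⟨T, l, ⟨⟨ha, hT, hl⟩, rfl⟩, hT, by omega, hκ, rfl, rfl⟩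
    · right; left
      have hl' : l < 1 := hl
      have h0 : l = 0 := by omega
      subst h0
      exact ⟨T, ⟨⟨ha, hT, hl⟩, rfl⟩, hT, rfl, rfl⟩
    · right; right; left
      have hl' : l < q - κ T := hl
      exact ⟨T, l, ⟨⟨ha, hT, hl⟩, rfl⟩, hT, hl', hκ, rfl, rfl⟩
    · right; right; right
      have hl' : l < 1 := hl
      have h0 : l = 0 := by omega
      subst h0
      have hN := h.1
      exact ⟨T, ⟨⟨ha, hT, hl⟩, rfl⟩, hT, Nat.mul_pos (by omega) (by omega), rfl, rfl⟩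

lemma kmono {K S S' : ℕ} (h : S < S') : K * S + K ≤ K * S' := by
  have := Nat.mul_le_mul_left K (Nat.succ_le_of_lt h)
  rw [Nat.mul_succ] at this
  exact this

lemma kd {K S S' a a' : ℕ} (h : K * S + a = K * S' + a') (ha : a < K) (ha' : a' < K) :
    S = S' ∧ a = a' := by
  rcases lt_trichotomy S S' with h1 | h1 | h1
  · have := kmono (K := K) h1
    omega
  · subst h1
    exact ⟨rfl, by omega⟩
  · have := kmono (K := K) h1
    omega

lemma cx_inj (h : Good q κ N) {x y : Elt q κ N} (e : cx x = cx y) : x = y := by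
  rcases coord_cases h x with ⟨hx, hx1, _⟩ | ⟨T, l, ⟨hx0, hx⟩, hT, hl, hκ, hx1, _⟩ |
    ⟨T, ⟨hx0, hx⟩, hT, hx1, _⟩ | ⟨T, l, ⟨hx0, hx⟩, hT, hl, hκ, hx1, _⟩ |
    ⟨T, ⟨hx0, hx⟩, hT, hp, hx1, _⟩ <;>
  rcases coord_cases h y with ⟨hy, hy1, _⟩ | ⟨T', l', ⟨hy0, hy⟩, hT', hl', hκ', hy1, _⟩ |
    ⟨T', ⟨hy0, hy⟩, hT', hy1, _⟩ | ⟨T', l', ⟨hy0, hy⟩, hT', hl', hκ', hy1, _⟩ |
    ⟨T', ⟨hy0, hy⟩, hT', hp', hy1, _⟩ <;>
  rw [hx1, hy1] at e
  -- centre
  · rw [hx, hy]
  · exfalso; omega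
  · exfalso; omega
  · exfalso; omega
  · exfalso; omega
  -- arm 0
  · exfalso; omega
  · have e' : (2 * q + 2) * T + (l + 1) = (2 * q + 2) * T' + (l' + 1) := by omega
    obtain ⟨h1, h2⟩ := kd e' (by omega) (by omega)
    have h3 : l = l' := by omega
    subst h1 h3
    rw [hx, hy]
  · exfalso; omega
  · exfalso; omega
  · exfalso
    have e' : (2 * q + 2) * T + (l + 1) = (2 * q + 2) * (T' + N) + 0 := by omega
    obtain ⟨h1, h2⟩ := kd e' (by omega) (by omega)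
    omega
  -- arm 1
  · exfalso; omega
  · exfalso; omega
  · have e' : (2 * q + 2) * T + 1 = (2 * q + 2) * T' + 1 := by omega
    obtain ⟨h1, h2⟩ := kd e' (by omega) (by omega)
    subst h1
    rw [hx, hy]
  · exfalso
    have e' : (2 * q + 2) * T + 1 = (2 * q + 2) * T' + (l' + 2) := by omega
    obtain ⟨h1, h2⟩ := kd e' (by omega) (by omega)
    omega
  · exfalso; omega
  -- arm 2
  · exfalso; omega
  · exfalso; omega
  · exfalso
    have e' : (2 * q + 2) * T + (l + 2) = (2 * q + 2) * T' + 1 := by omega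
    obtain ⟨h1, h2⟩ := kd e' (by omega) (by omega)
    omega
  · have e' : (2 * q + 2) * T + (l + 2) = (2 * q + 2) * T' + (l' + 2) := by omega
    obtain ⟨h1, h2⟩ := kd e' (by omega) (by omega)
    have h3 : l = l' := by omega
    subst h1 h3
    rw [hx, hy]
  · exfalso; omega
  -- arm 3
  · exfalso; omega
  · exfalso
    have e' : (2 * q + 2) * (T + N) + 0 = (2 * q + 2) * T' + (l' + 1) := by omega
    obtain ⟨h1, h2⟩ := kd e' (by omega) (by omega)
    omega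
  · exfalso; omega
  · exfalso; omega
  · have e' : (2 * q + 2) * (T + N) + 0 = (2 * q + 2) * (T' + N) + 0 := by omega
    obtain ⟨h1, h2⟩ := kd e' (by omega) (by omega)
    have h3 : T = T' := by omega
    subst h3
    rw [hx, hy]

lemma cy_inj (h : Good q κ N) {x y : Elt q κ N} (e : cy x = cy y) : x = y := by
  rcases coord_cases h x with ⟨hx, _, hx1⟩ | ⟨T, l, ⟨hx0, hx⟩, hT, hl, hκ, _, hx1⟩ |
    ⟨T, ⟨hx0, hx⟩, hT, _, hx1⟩ | ⟨T, l, ⟨hx0, hx⟩, hT, hl, hκ, _, hx1⟩ |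
    ⟨T, ⟨hx0, hx⟩, hT, hp, _, hx1⟩ <;>
  rcases coord_cases h y with ⟨hy, _, hy1⟩ | ⟨T', l', ⟨hy0, hy⟩, hT', hl', hκ', _, hy1⟩ |
    ⟨T', ⟨hy0, hy⟩, hT', _, hy1⟩ | ⟨T', l', ⟨hy0, hy⟩, hT', hl', hκ', _, hy1⟩ |
    ⟨T', ⟨hy0, hy⟩, hT', hp', _, hy1⟩ <;>
  rw [hx1, hy1] at e
  -- centre
  · rw [hx, hy]
  · exfalso; omega
  · exfalso; omega
  · exfalso; omega
  · exfalso; omega
  -- arm 0
  · exfalso; omega
  · have e' : (2 * q + 2) * T + (l + 1) = (2 * q + 2) * T' + (l' + 1) := by omega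
    obtain ⟨h1, h2⟩ := kd e' (by omega) (by omega)
    have h3 : l = l' := by omega
    subst h1 h3
    rw [hx, hy]
  · exfalso
    have e' : (2 * q + 2) * T + (l + 1) = (2 * q + 2) * T' + (q + 1) := by omega
    obtain ⟨h1, h2⟩ := kd e' (by omega) (by omega)
    omega
  · exfalso; omega
  · exfalso; omega
  -- arm 1
  · exfalso; omega
  · exfalso
    have e' : (2 * q + 2) * T + (q + 1) = (2 * q + 2) * T' + (l' + 1) := by omega
    obtain ⟨h1, h2⟩ := kd e' (by omega) (by omega)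
    omega
  · have e' : (2 * q + 2) * T + (q + 1) = (2 * q + 2) * T' + (q + 1) := by omega
    obtain ⟨h1, h2⟩ := kd e' (by omega) (by omega)
    subst h1
    rw [hx, hy]
  · exfalso; omega
  · exfalso; omega
  -- arm 2
  · exfalso; omega
  · exfalso; omega
  · exfalso; omega
  · have e' : (2 * q + 2) * T + (l + 1) = (2 * q + 2) * T' + (l' + 1) := by omega
    obtain ⟨h1, h2⟩ := kd e' (by omega) (by omega)
    have h3 : l = l' := by omega
    subst h1 h3
    rw [hx, hy]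
  · exfalso
    have e' : (2 * q + 2) * T + (l + 1) = (2 * q + 2) * T' + (q + 1) := by omega
    obtain ⟨h1, h2⟩ := kd e' (by omega) (by omega)
    omega
  -- arm 3
  · exfalso; omega
  · exfalso; omega
  · exfalso; omega
  · exfalso
    have e' : (2 * q + 2) * T + (q + 1) = (2 * q + 2) * T' + (l' + 1) := by omega
    obtain ⟨h1, h2⟩ := kd e' (by omega) (by omega)
    omega
  · have e' : (2 * q + 2) * T + (q + 1) = (2 * q + 2) * T' + (q + 1) := by omega
    obtain ⟨h1, h2⟩ := kd e' (by omega) (by omega)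
    subst h1
    rw [hx, hy]

theorem lin_spi (h : Good q κ N) (r : Fin 2) : StrictLin (spi q κ N r) := by
  have key : ∀ g : Elt q κ N → ℤ, (∀ x y, g x = g y → x = y) →
      StrictLin (fun x y => g x < g y) := by
    intro g hg
    refine ⟨fun x => lt_irrefl _, fun x y z => lt_trans, fun x y => ?_⟩
    rcases lt_trichotomy (g x) (g y) with h1 | h1 | h1
    · exact Or.inl h1
    · exact Or.inr (Or.inl (hg _ _ h1))
    · exact Or.inr (Or.inr h1)
  by_cases hr : r = 0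
  · subst hr
    exact key cx (fun x y e => cx_inj h e)
  · have : spi q κ N r = fun x y => cy x < cy y := by
      funext x y
      unfold spi
      rw [if_neg hr]
    rw [this]
    exact key cy (fun x y e => cy_inj h e)

theorem card_elt (h : Good q κ N) : Nat.card (Elt q κ N) = (q + 3) * N ^ 2 + 1 := by
  have h1 : Nat.card (Elt q κ N) = Nat.card {x : ℕ × ℕ × ℕ // x.1 < 4 ∧ x.2.1 < N * N ∧
      x.2.2 < num q κ x.1 x.2.1} + 1 := by
    unfold Elt
    exact Finite.card_option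
  rw [h1, Nat.card_congr (eltEquiv q κ N), Nat.card_eq_fintype_card, Fintype.card_sigma]
  have h2 : ∀ T : Fin (N * N), Fintype.card (Σ a : Fin 4, Fin (num q κ a T)) = q + 3 := by
    intro T
    rw [Fintype.card_sigma, Fin.sum_univ_four]
    simp only [Fintype.card_fin]
    have hκ := h.2 T T.2
    have e0 : num q κ ((0 : Fin 4) : ℕ) T = κ T + 1 := rfl
    have e1 : num q κ ((1 : Fin 4) : ℕ) T = 1 := rfl
    have e2 : num q κ ((2 : Fin 4) : ℕ) T = q - κ T := rfl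
    have e3 : num q κ ((3 : Fin 4) : ℕ) T = 1 := rfl
    rw [e0, e1, e2, e3]
    omega
  rw [Finset.sum_congr rfl (fun T _ => h2 T), Finset.sum_const, Finset.card_univ, Fintype.card_fin,
    smul_eq_mul]
  ring

end Pool.Agent.Helper20.OP.H
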