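import Pool.Agent.Helper20.OP.H.Def

/-!
# Spiral permutations: the model

`κ T < q` for `T < N²`: the colour of the cell number `T` (in row `T / N` and column `T % N`).  Elements: `none`: the
centre; `some (a, T, l)` with `T < N²`: `a = 0`: `NE`, `l < κ T + 1`; `a = 1`: `NW`, `l = 0`; `a = 2`: `SW`, `l < q - κ T`; `a = 3`: `SE`,
`l = 0`.  With `K = 2 q + 2`, the coordinates (`cx`, `cy`) of the elements are
`NE`: `(K T + l + 1, K T + l + 1)`, `NW`: `(- K T - 1, K T + q + 1)`, `SW`: `(- K T - l - 2, - K T - l - 1)`,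
`SE`: `(K (T + N), - K T - q - 1)`, centre: `(0, 0)`.
So on the right side the elements `SE T` lie immediately before `NE (T + N) 0`.
-/

set_option autoImplicit false

namespace Pool.Agent.Helper20.OP.H

/-- the number of elements of the arm `a` in the cell `T` -/
def num (q : ℕ) (κ : ℕ → ℕ) (a T : ℕ) : ℕ :=
  if a = 0 then κ T + 1 else if a = 2 then q - κ T else 1

/-- the elements -/
def Elt (q : ℕ) (κ : ℕ → ℕ) (N : ℕ) : Type :=
  Option {x : ℕ × ℕ × ℕ // x.1 < 4 ∧ x.2.1 < N * N ∧ x.2.2 < num q κ x.1 x.2.1}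

/-- horizontal coordinate -/
def cx {q : ℕ} {κ : ℕ → ℕ} {N : ℕ} : Elt q κ N → ℤ
  | none => 0
  | some x => if x.1.1 = 0 then ((2 * q + 2) * x.1.2.1 + x.1.2.2 + 1 : ℕ)
      else if x.1.1 = 1 then -(((2 * q + 2) * x.1.2.1 + 1 : ℕ) : ℤ)
      else if x.1.1 = 2 then -(((2 * q + 2) * x.1.2.1 + x.1.2.2 + 2 : ℕ) : ℤ)
      else ((2 * q + 2) * (x.1.2.1 + N) : ℕ)

/-- vertical coordinate -/
def cy {q : ℕ} {κ : ℕ → ℕ} {N : ℕ} : Elt q κ N → ℤ
  | none => 0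
  | some x => if x.1.1 = 0 then ((2 * q + 2) * x.1.2.1 + x.1.2.2 + 1 : ℕ)
      else if x.1.1 = 1 then ((2 * q + 2) * x.1.2.1 + q + 1 : ℕ)
      else if x.1.1 = 2 then -(((2 * q + 2) * x.1.2.1 + x.1.2.2 + 1 : ℕ) : ℤ)
      else -(((2 * q + 2) * x.1.2.1 + q + 1 : ℕ) : ℤ)

/-- the two orders -/
def spi (q : ℕ) (κ : ℕ → ℕ) (N : ℕ) : Str 2 (Elt q κ N) :=
  fun r x y => if r = 0 then cx x < cx y else cy x < cy y

/-- the standing assumptions -/
def Good (q : ℕ) (κ : ℕ → ℕ) (N : ℕ) : Prop := 2 ≤ N ∧ ∀ T, T < N * N → κ T < q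

end Pool.Agent.Helper20.OP.H
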