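import Pool.Agent.Helper20.OP.H.Lin

/-!
# Block OP-H2: arms and immediate successors in the model

`mk a T l`: the element of the arm `a` with indices `T`, `l`.  The arms are clear from the signs of the coordinates.
The immediate successors (only those needed).  In each case write down the coordinates of the elements on the side:
right side, in increasing order of `cx`: `NE T l` at `K T + l + 1`, `SE T` at `K (T + N)`; top: `NE T l` at `K T + l + 1`, `NW T` at
`K T + q + 1`; left: `NW T` at `K T + 1`, `SW T l` at `K T + l + 2`; bottom: `SW T l` at `K T + l + 1`, `SE T` at `K T + q + 1`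
(`K = 2 q + 2`, `l + 1 ≤ q`).  For the iff statements: if the successor is `y`, and the claimed element `y₀` exists, then
neither `y < y₀` nor `y₀ < y`; if no `y₀` exists, `y` would have a coordinate which is not there.
-/

set_option autoImplicit false

namespace Pool.Agent.Helper20.OP.H

variable {q : ℕ} {κ : ℕ → ℕ} {N : ℕ}

/-- elements of the model -/
def mk {q : ℕ} {κ : ℕ → ℕ} {N : ℕ} (a T l : ℕ) (ha : a < 4) (hT : T < N * N) (hl : l < num q κ a T) :
    Elt q κ N := some ⟨(a, T, l), ha, hT, hl⟩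

/-- the element `x` has the arm `a` and the indices `T`, `l` -/
def Is (x : Elt q κ N) (a T l : ℕ) : Prop :=
  ∃ (ha : a < 4) (hT : T < N * N) (hl : l < num q κ a T), x = mk a T l ha hT hl

lemma Is.unique {x y : Elt q κ N} {a T l : ℕ} (hx : Is x a T l) (hy : Is y a T l) : x = y := by
  obtain ⟨_, _, _, rfl⟩ := hx
  obtain ⟨_, _, _, rfl⟩ := hy
  rfl

lemma Is.inj {x : Elt q κ N} {a T l a' T' l' : ℕ} (hx : Is x a T l) (hy : Is x a' T' l') :
    a = a' ∧ T = T' ∧ l = l' := by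
  obtain ⟨_, _, _, rfl⟩ := hx
  obtain ⟨_, _, _, e⟩ := hy
  have e1 := congrArg Subtype.val (Option.some.inj e)
  simp only [Prod.mk.injEq] at e1
  exact e1

lemma mk_cases (w : Elt q κ N) : w = none ∨ (∃ T l, Is w 0 T l) ∨ (∃ T, Is w 1 T 0) ∨
    (∃ T l, Is w 2 T l) ∨ (∃ T, Is w 3 T 0) := by
  rcases w with _ | ⟨⟨a, T, l⟩, ha, hT, hl⟩
  · exact Or.inl rfl
  · right
    simp only at ha hT hl
    have h4 : a = 0 ∨ a = 1 ∨ a = 2 ∨ a = 3 := by omega
    rcases h4 with rfl | rfl | rfl | rfl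
    · exact Or.inl ⟨T, l, ha, hT, hl, rfl⟩
    · have hl0 : l = 0 := by
        simp [num] at hl
        exact hl
      subst hl0
      exact Or.inr (Or.inl ⟨T, ha, hT, hl, rfl⟩)
    · exact Or.inr (Or.inr (Or.inl ⟨T, l, ha, hT, hl, rfl⟩))
    · have hl0 : l = 0 := by
        simp [num] at hl
        exact hl
      subst hl0
      exact Or.inr (Or.inr (Or.inr ⟨T, ha, hT, hl, rfl⟩))

lemma is0 {x : Elt q κ N} {T l : ℕ} (hx : Is x 0 T l) : T < N * N ∧ l ≤ κ T ∧
    cx x = (((2 * q + 2) * T : ℕ) : ℤ) + l + 1 ∧ cy x = (((2 * q + 2) * T : ℕ) : ℤ) + l + 1 := by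
  obtain ⟨_, hT, hl, rfl⟩ := hx
  refine ⟨hT, ?_, ?_, ?_⟩
  · simp [num] at hl
    omega
  · simp [mk, cx]
  · simp [mk, cy]

lemma is1 {x : Elt q κ N} {T l : ℕ} (hx : Is x 1 T l) : T < N * N ∧ l = 0 ∧
    cx x = -((((2 * q + 2) * T : ℕ) : ℤ) + 1) ∧ cy x = (((2 * q + 2) * T : ℕ) : ℤ) + q + 1 := by
  obtain ⟨_, hT, hl, rfl⟩ := hx
  refine ⟨hT, ?_, ?_, ?_⟩
  · simp [num] at hl
    exact hl
  · simp [mk, cx]
  · simp [mk, cy]

lemma is2 {x : Elt q κ N} {T l : ℕ} (hx : Is x 2 T l) : T < N * N ∧ l < q - κ T ∧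
    cx x = -((((2 * q + 2) * T : ℕ) : ℤ) + l + 2) ∧
    cy x = -((((2 * q + 2) * T : ℕ) : ℤ) + l + 1) := by
  obtain ⟨_, hT, hl, rfl⟩ := hx
  refine ⟨hT, ?_, ?_, ?_⟩
  · simp [num] at hl
    omega
  · simp [mk, cx]
  · simp [mk, cy]

lemma is3 {x : Elt q κ N} {T l : ℕ} (hx : Is x 3 T l) : T < N * N ∧ l = 0 ∧
    cx x = (((2 * q + 2) * (T + N) : ℕ) : ℤ) ∧
    cy x = -((((2 * q + 2) * T : ℕ) : ℤ) + q + 1) := by
  obtain ⟨_, hT, hl, rfl⟩ := hx
  refine ⟨hT, ?_, ?_, ?_⟩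
  · simp [num] at hl
    exact hl
  · simp [mk, cx]
  · simp [mk, cy]

lemma mk0 {T l : ℕ} (hT : T < N * N) (hl : l ≤ κ T) : ∃ y : Elt q κ N, Is y 0 T l :=
  ⟨_, by omega, hT, by simp [num]; omega, rfl⟩

lemma mk1 {T : ℕ} (hT : T < N * N) : ∃ y : Elt q κ N, Is y 1 T 0 :=
  ⟨_, by omega, hT, by simp [num], rfl⟩

lemma mk2 {T l : ℕ} (hT : T < N * N) (hl : l < q - κ T) : ∃ y : Elt q κ N, Is y 2 T l :=
  ⟨_, by omega, hT, by simp [num]; omega, rfl⟩

lemma mk3 {T : ℕ} (hT : T < N * N) : ∃ y : Elt q κ N, Is y 3 T 0 :=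
  ⟨_, by omega, hT, by simp [num], rfl⟩

/-- comparison of multiples -/
lemma tri (K T S : ℕ) : (T = S) ∨ (K * T + K ≤ K * S) ∨ (K * S + K ≤ K * T) := by
  rcases lt_trichotomy T S with h | h | h
  · right; left
    calc K * T + K = K * (T + 1) := by ring
      _ ≤ K * S := Nat.mul_le_mul_left K h
  · exact Or.inl h
  · right; right
    calc K * S + K = K * (S + 1) := by ring
      _ ≤ K * T := Nat.mul_le_mul_left K h

lemma spi0 {x y : Elt q κ N} : spi q κ N 0 x y ↔ cx x < cx y := by simp [spi]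

lemma spi1 {x y : Elt q κ N} : spi q κ N 1 x y ↔ cy x < cy y := by simp [spi]

lemma cx_none : cx (none : Elt q κ N) = 0 := rfl

lemma cy_none : cy (none : Elt q κ N) = 0 := rfl

lemma spi0l {x : Elt q κ N} : spi q κ N 0 none x ↔ 0 < cx x := by
  simp only [spi, if_true]
  exact Iff.rfl

lemma spi0r {x : Elt q κ N} : spi q κ N 0 x none ↔ cx x < 0 := by
  simp only [spi, if_true]
  exact Iff.rfl

lemma spi1l {x : Elt q κ N} : spi q κ N 1 none x ↔ 0 < cy x := by
  simp only [spi, one_ne_zero, if_false]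
  exact Iff.rfl

lemma spi1r {x : Elt q κ N} : spi q κ N 1 x none ↔ cy x < 0 := by
  simp only [spi, one_ne_zero, if_false]
  exact Iff.rfl

theorem ne_iff (x : Elt q κ N) : NE (spi q κ N) none x ↔ ∃ T l, Is x 0 T l := by
  unfold NE
  rw [spi0l, spi1l]
  constructor
  · rintro ⟨h1, h2⟩
    rcases mk_cases x with rfl | h | ⟨T, h⟩ | ⟨T, l, h⟩ | ⟨T, h⟩
    · exact absurd h1 (lt_irrefl _)
    · exact h
    · obtain ⟨-, -, e1, e2⟩ := is1 h
      omega
    · obtain ⟨-, -, e1, e2⟩ := is2 h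
      omega
    · obtain ⟨-, -, e1, e2⟩ := is3 h
      omega
  · rintro ⟨T, l, h⟩
    obtain ⟨-, -, e1, e2⟩ := is0 h
    omega

theorem nw_iff (x : Elt q κ N) : NW (spi q κ N) none x ↔ ∃ T, Is x 1 T 0 := by
  unfold NW
  rw [spi0r, spi1l]
  constructor
  · rintro ⟨h1, h2⟩
    rcases mk_cases x with rfl | ⟨T, l, h⟩ | h | ⟨T, l, h⟩ | ⟨T, h⟩
    · exact absurd h1 (lt_irrefl _)
    · obtain ⟨-, -, e1, e2⟩ := is0 h
      omega
    · exact h
    · obtain ⟨-, -, e1, e2⟩ := is2 h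
      omega
    · obtain ⟨-, -, e1, e2⟩ := is3 h
      omega
  · rintro ⟨T, h⟩
    obtain ⟨-, -, e1, e2⟩ := is1 h
    omega

theorem sw_iff (x : Elt q κ N) : SW (spi q κ N) none x ↔ ∃ T l, Is x 2 T l := by
  unfold SW
  rw [spi0r, spi1r]
  constructor
  · rintro ⟨h1, h2⟩
    rcases mk_cases x with rfl | ⟨T, l, h⟩ | ⟨T, h⟩ | h | ⟨T, h⟩
    · exact absurd h1 (lt_irrefl _)
    · obtain ⟨-, -, e1, e2⟩ := is0 h
      omega
    · obtain ⟨-, -, e1, e2⟩ := is1 h
      omega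
    · exact h
    · obtain ⟨-, -, e1, e2⟩ := is3 h
      omega
  · rintro ⟨T, l, h⟩
    obtain ⟨-, -, e1, e2⟩ := is2 h
    omega

/-- the horizontal coordinate in the arm `SE` is positive -/
lemma se_pos {x : Elt q κ N} {T l : ℕ} (h : Is x 3 T l) : 0 < cx x := by
  obtain ⟨hT, -, e1, e2⟩ := is3 h
  rw [e1]
  have hN : 0 < N := by
    rcases Nat.eq_zero_or_pos N with h0 | h0
    · subst h0
      simp at hT
    · exact h0
  have : 0 < (2 * q + 2) * (T + N) := Nat.mul_pos (by omega) (by omega)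
  exact_mod_cast this

theorem se_iff (x : Elt q κ N) : SE (spi q κ N) none x ↔ ∃ T, Is x 3 T 0 := by
  unfold SE
  rw [spi0l, spi1r]
  constructor
  · rintro ⟨h1, h2⟩
    rcases mk_cases x with rfl | ⟨T, l, h⟩ | ⟨T, h⟩ | ⟨T, l, h⟩ | h
    · exact absurd h1 (lt_irrefl _)
    · obtain ⟨-, -, e1, e2⟩ := is0 h
      omega
    · obtain ⟨-, -, e1, e2⟩ := is1 h
      omega
    · obtain ⟨-, -, e1, e2⟩ := is2 h
      omega
    · exact h
  · rintro ⟨T, h⟩
    refine ⟨se_pos h, ?_⟩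
    obtain ⟨-, -, e1, e2⟩ := is3 h
    omega

lemma su_unique (h : Good q κ N) {x y₀ : Elt q κ N} (h1 : cy x < cy y₀)
    (h2 : ∀ w : Elt q κ N, cy x < cy w → cy y₀ ≤ cy w) (y : Elt q κ N) :
    Su (spi q κ N) x y ↔ y = y₀ := by
  unfold Su
  simp only [spi1]
  constructor
  · rintro ⟨h3, h4⟩
    have h5 := h2 y h3
    have h6 := h4 y₀
    exact cy_inj h (by omega)
  · rintro rfl
    refine ⟨h1, fun w hw => ?_⟩
    have := h2 w hw.1
    omega

lemma sr_unique (h : Good q κ N) {x y₀ : Elt q κ N} (h1 : cx x < cx y₀)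
    (h2 : ∀ w : Elt q κ N, cx x < cx w → cx y₀ ≤ cx w) (y : Elt q κ N) :
    Sr (spi q κ N) x y ↔ y = y₀ := by
  unfold Sr
  simp only [spi0]
  constructor
  · rintro ⟨h3, h4⟩
    have h5 := h2 y h3
    have h6 := h4 y₀
    exact cx_inj h (by omega)
  · rintro rfl
    refine ⟨h1, fun w hw => ?_⟩
    have := h2 w hw.1
    omega

lemma sd_unique (h : Good q κ N) {x y₀ : Elt q κ N} (h1 : cy y₀ < cy x)
    (h2 : ∀ w : Elt q κ N, cy w < cy x → cy w ≤ cy y₀) (y : Elt q κ N) :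
    Sd (spi q κ N) x y ↔ y = y₀ := by
  unfold Sd Su
  simp only [spi1]
  constructor
  · rintro ⟨h3, h4⟩
    have h5 := h2 y h3
    have h6 := h4 y₀
    exact cy_inj h (by omega)
  · rintro rfl
    refine ⟨h1, fun w hw => ?_⟩
    have := h2 w hw.2
    omega

lemma sl_unique (h : Good q κ N) {x y₀ : Elt q κ N} (h1 : cx y₀ < cx x)
    (h2 : ∀ w : Elt q κ N, cx w < cx x → cx w ≤ cx y₀) (y : Elt q κ N) :
    Sl (spi q κ N) x y ↔ y = y₀ := by
  unfold Sl Sr
  simp only [spi0]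
  constructor
  · rintro ⟨h3, h4⟩
    have h5 := h2 y h3
    have h6 := h4 y₀
    exact cx_inj h (by omega)
  · rintro rfl
    refine ⟨h1, fun w hw => ?_⟩
    have := h2 w hw.2
    omega

/-- upwards from `NE T l`: `NE T (l + 1)` if it exists, otherwise `NW T` -/
theorem su_ne (h : Good q κ N) {x y : Elt q κ N} {T l : ℕ} (hx : Is x 0 T l) :
    Su (spi q κ N) x y ↔ ((l < κ T ∧ Is y 0 T (l + 1)) ∨ (l = κ T ∧ Is y 1 T 0)) := by
  obtain ⟨hT, hl, -, ex⟩ := is0 hx
  have hκ := h.2 T hT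
  rcases lt_or_eq_of_le hl with hl' | hl'
  · obtain ⟨y₀, hy₀⟩ := mk0 (q := q) (κ := κ) (N := N) hT (l := l + 1) hl'
    obtain ⟨-, -, -, ey⟩ := is0 hy₀
    rw [su_unique h (y₀ := y₀) (by rw [ex, ey]; omega) ?_ y]
    · constructor
      · rintro rfl
        exact Or.inl ⟨hl', hy₀⟩
      · rintro (⟨-, h1⟩ | ⟨h1, -⟩)
        · exact h1.unique hy₀
        · omega
    · intro w hw
      rw [ey]
      rw [ex] at hw
      omega
  · obtain ⟨y₀, hy₀⟩ := mk1 (q := q) (κ := κ) (N := N) hT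
    obtain ⟨-, -, -, ey⟩ := is1 hy₀
    rw [su_unique h (y₀ := y₀) (by rw [ex, ey]; omega) ?_ y]
    · constructor
      · rintro rfl
        exact Or.inr ⟨hl', hy₀⟩
      · rintro (⟨h1, -⟩ | ⟨-, h1⟩)
        · omega
        · exact h1.unique hy₀
    · intro w hw
      rw [ey]
      rw [ex] at hw
      rcases mk_cases w with rfl | ⟨S, m, hw'⟩ | ⟨S, hw'⟩ | ⟨S, m, hw'⟩ | ⟨S, hw'⟩
      · rw [cy_none] at hw
        omega
      · obtain ⟨hS, hm, -, ew⟩ := is0 hw'
        rw [ew] at hw ⊢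
        have hκS := h.2 S hS
        rcases tri (2 * q + 2) T S with e | e | e
        · subst e
          omega
        · omega
        · omega
      · obtain ⟨hS, hm, -, ew⟩ := is1 hw'
        rw [ew] at hw ⊢
        rcases tri (2 * q + 2) T S with e | e | e
        · subst e
          omega
        · omega
        · omega
      · obtain ⟨hS, hm, -, ew⟩ := is2 hw'
        omega
      · obtain ⟨hS, hm, -, ew⟩ := is3 hw'
        omega

/-- upwards from `NW T`: `NE (T + 1) 0` -/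
theorem su_nw (h : Good q κ N) {x y : Elt q κ N} {T : ℕ} (hx : Is x 1 T 0) :
    Su (spi q κ N) x y ↔ Is y 0 (T + 1) 0 := by
  obtain ⟨hT, -, -, ex⟩ := is1 hx
  have key : ∀ w : Elt q κ N, cy x < cy w →
      T + 1 < N * N ∧ (((2 * q + 2) * (T + 1) : ℕ) : ℤ) + 1 ≤ cy w := by
    intro w hw
    rw [ex] at hw
    have e3 : (2 * q + 2) * (T + 1) = (2 * q + 2) * T + (2 * q + 2) := by ring
    rcases mk_cases w with rfl | ⟨S, m, hw'⟩ | ⟨S, hw'⟩ | ⟨S, m, hw'⟩ | ⟨S, hw'⟩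
    · rw [cy_none] at hw
      omega
    · obtain ⟨hS, hm, -, ew⟩ := is0 hw'
      rw [ew] at hw ⊢
      have hκS := h.2 S hS
      rcases lt_or_ge T S with hTS | hTS
      · have := Nat.mul_le_mul_left (2 * q + 2) (show T + 1 ≤ S from hTS)
        omega
      · have := Nat.mul_le_mul_left (2 * q + 2) hTS
        omega
    · obtain ⟨hS, hm, -, ew⟩ := is1 hw'
      rw [ew] at hw ⊢
      rcases lt_or_ge T S with hTS | hTS
      · have := Nat.mul_le_mul_left (2 * q + 2) (show T + 1 ≤ S from hTS)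
        omega
      · have := Nat.mul_le_mul_left (2 * q + 2) hTS
        omega
    · obtain ⟨hS, hm, -, ew⟩ := is2 hw'
      omega
    · obtain ⟨hS, hm, -, ew⟩ := is3 hw'
      omega
  by_cases hT1 : T + 1 < N * N
  · obtain ⟨y₀, hy₀⟩ := mk0 (q := q) (κ := κ) (N := N) hT1 (l := 0) (by omega)
    obtain ⟨-, -, -, ey⟩ := is0 hy₀
    have e3 : (2 * q + 2) * (T + 1) = (2 * q + 2) * T + (2 * q + 2) := by ring
    rw [su_unique h (y₀ := y₀) (by rw [ex, ey]; omega) ?_ y]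
    · constructor
      · rintro rfl
        exact hy₀
      · intro h1
        exact h1.unique hy₀
    · intro w hw
      have := (key w hw).2
      rw [ey]
      omega
  · constructor
    · intro h1
      have h2 : cy x < cy y := spi1.1 h1.1
      exact absurd (key y h2).1 hT1
    · intro h1
      exact absurd (is0 h1).1 hT1

/-- to the right from `NE T l` to `NE T (l + 1)` -/
theorem sr_ne (h : Good q κ N) {x y : Elt q κ N} {T l : ℕ} (hx : Is x 0 T l)
    (hy : Is y 0 T (l + 1)) : Sr (spi q κ N) x y := by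
  obtain ⟨-, -, ex, -⟩ := is0 hx
  obtain ⟨-, -, ey, -⟩ := is0 hy
  refine (sr_unique h (by rw [ex, ey]; omega) (fun w hw => ?_) y).2 rfl
  rw [ex] at hw
  rw [ey]
  omega

/-- to the right from `SE T`, elements of `NE` -/
theorem sr_se (h : Good q κ N) {x y : Elt q κ N} {T : ℕ} (hx : Is x 3 T 0) :
    (Sr (spi q κ N) x y ∧ NE (spi q κ N) none y) ↔ Is y 0 (T + N) 0 := by
  obtain ⟨hT, -, ex, -⟩ := is3 hx
  constructor
  · rintro ⟨h1, h2⟩
    obtain ⟨S, m, hy⟩ := (ne_iff y).1 h2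
    obtain ⟨hS, hm, ey, -⟩ := is0 hy
    have h3 : cx x < cx y := spi0.1 h1.1
    rw [ex, ey] at h3
    have hκS := h.2 S hS
    have hTS : T + N ≤ S := by
      by_contra hlt
      push Not at hlt
      have := Nat.mul_le_mul_left (2 * q + 2) (show S + 1 ≤ T + N from hlt)
      have e3 : (2 * q + 2) * (S + 1) = (2 * q + 2) * S + (2 * q + 2) := by ring
      omega
    obtain ⟨y₀, hy₀⟩ := mk0 (q := q) (κ := κ) (N := N) (lt_of_le_of_lt hTS hS) (l := 0) (by omega)
    obtain ⟨-, -, ey₀, -⟩ := is0 hy₀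
    have h4 := h1.2 y₀
    rw [spi0, spi0, ex, ey, ey₀] at h4
    rcases Nat.eq_or_lt_of_le hTS with e | e
    · subst e
      have hm0 : m = 0 := by omega
      subst hm0
      exact hy
    · have := Nat.mul_le_mul_left (2 * q + 2) (show T + N + 1 ≤ S from e)
      have e3 : (2 * q + 2) * (T + N + 1) = (2 * q + 2) * (T + N) + (2 * q + 2) := by ring
      omega
  · intro hy
    obtain ⟨-, -, ey, -⟩ := is0 hy
    refine ⟨(sr_unique h (by rw [ex, ey]; omega) (fun w hw => ?_) y).2 rfl,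
      (ne_iff y).2 ⟨_, _, hy⟩⟩
    rw [ex] at hw
    rw [ey]
    omega

/-- to the left from `NW T`: `SW T 0` -/
theorem sl_nw (h : Good q κ N) {x y : Elt q κ N} {T : ℕ} (hx : Is x 1 T 0) :
    Sl (spi q κ N) x y ↔ Is y 2 T 0 := by
  obtain ⟨hT, -, ex, -⟩ := is1 hx
  have hκ := h.2 T hT
  obtain ⟨y₀, hy₀⟩ := mk2 (q := q) (κ := κ) (N := N) hT (l := 0) (by omega)
  obtain ⟨-, -, ey, -⟩ := is2 hy₀
  rw [sl_unique h (y₀ := y₀) (by rw [ex, ey]; omega) ?_ y]
  · constructor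
    · rintro rfl
      exact hy₀
    · intro h1
      exact h1.unique hy₀
  · intro w hw
    rw [ex] at hw
    rw [ey]
    omega

/-- to the left from `SW T l` to `SW T (l + 1)` -/
theorem sl_sw (h : Good q κ N) {x y : Elt q κ N} {T l : ℕ} (hx : Is x 2 T l)
    (hy : Is y 2 T (l + 1)) : Sl (spi q κ N) x y := by
  obtain ⟨-, -, ex, -⟩ := is2 hx
  obtain ⟨-, -, ey, -⟩ := is2 hy
  refine (sl_unique h (by rw [ex, ey]; omega) (fun w hw => ?_) y).2 rfl
  rw [ex] at hw
  rw [ey]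
  omega

/-- downwards from `SW T l`: `SW T (l + 1)` if it exists, otherwise `SE T` -/
theorem sd_sw (h : Good q κ N) {x y : Elt q κ N} {T l : ℕ} (hx : Is x 2 T l) :
    Sd (spi q κ N) x y ↔
      ((l + 1 < q - κ T ∧ Is y 2 T (l + 1)) ∨ (l + 1 = q - κ T ∧ Is y 3 T 0)) := by
  obtain ⟨hT, hl, -, ex⟩ := is2 hx
  have hκ := h.2 T hT
  rcases lt_or_eq_of_le (show l + 1 ≤ q - κ T from hl) with hl' | hl'
  · obtain ⟨y₀, hy₀⟩ := mk2 (q := q) (κ := κ) (N := N) hT (l := l + 1) hl'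
    obtain ⟨-, -, -, ey⟩ := is2 hy₀
    rw [sd_unique h (y₀ := y₀) (by rw [ex, ey]; omega) ?_ y]
    · constructor
      · rintro rfl
        exact Or.inl ⟨hl', hy₀⟩
      · rintro (⟨-, h1⟩ | ⟨h1, -⟩)
        · exact h1.unique hy₀
        · omega
    · intro w hw
      rw [ey]
      rw [ex] at hw
      omega
  · obtain ⟨y₀, hy₀⟩ := mk3 (q := q) (κ := κ) (N := N) hT
    obtain ⟨-, -, -, ey⟩ := is3 hy₀
    rw [sd_unique h (y₀ := y₀) (by rw [ex, ey]; omega) ?_ y]
    · constructor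
      · rintro rfl
        exact Or.inr ⟨hl', hy₀⟩
      · rintro (⟨h1, -⟩ | ⟨-, h1⟩)
        · omega
        · exact h1.unique hy₀
    · intro w hw
      rw [ey]
      rw [ex] at hw
      rcases mk_cases w with rfl | ⟨S, m, hw'⟩ | ⟨S, hw'⟩ | ⟨S, m, hw'⟩ | ⟨S, hw'⟩
      · rw [cy_none] at hw
        omega
      · obtain ⟨hS, hm, -, ew⟩ := is0 hw'
        omega
      · obtain ⟨hS, hm, -, ew⟩ := is1 hw'
        omega
      · obtain ⟨hS, hm, -, ew⟩ := is2 hw'
        rw [ew] at hw ⊢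
        have hκS := h.2 S hS
        rcases tri (2 * q + 2) T S with e | e | e
        · subst e
          omega
        · omega
        · omega
      · obtain ⟨hS, hm, -, ew⟩ := is3 hw'
        rw [ew] at hw ⊢
        rcases tri (2 * q + 2) T S with e | e | e
        · subst e
          omega
        · omega
        · omega

end Pool.Agent.Helper20.OP.H
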